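import Pool.Agent.P.MP_81d17b_pr.Influence

/-! An exploration inequality: the influence of the boundary condition is bounded by a sum over
sparse chains of sites. -/

namespace Pool.Agent.P.MP_81d17b_pr

open Finset Function

variable {d : ℕ}

/-- Candidates for the next point of a chain. -/
def nxt (r : ℕ) (U F : Finset (Site d)) (y : Site d) : Finset (Site d) :=
  U.filter fun x => dist1 x y = r + 1 ∧ ∀ z ∈ F, r < dist1 x z

lemma mem_nxt {r : ℕ} {U F : Finset (Site d)} {x y : Site d} :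
    x ∈ nxt r U F y ↔ x ∈ U ∧ dist1 x y = r + 1 ∧ ∀ z ∈ F, r < dist1 x z := by
  simp [nxt]

/-- The total weight of the chains with `n` points in `U` that start next to `y` and keep away
from `F` and from one another. -/
noncomputable def chn (q : Site d → ℝ) (r : ℕ) : ℕ → Finset (Site d) → Finset (Site d) →
    Site d → ℝ
  | 0, _, _, _ => 1
  | n + 1, U, F, y => ∑ x ∈ nxt r U F y, q x * chn q r n U (insert x F) x

lemma chn_nonneg {q : Site d → ℝ} (hq : ∀ x, 0 ≤ q x) (r n : ℕ) :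
    ∀ (U F : Finset (Site d)) (y : Site d), 0 ≤ chn q r n U F y := by
  induction n with
  | zero => intro U F y; exact zero_le_one
  | succ n ih => intro U F y; exact Finset.sum_nonneg fun x _ => mul_nonneg (hq x) (ih _ _ _)

lemma chn_mono {q : Site d → ℝ} (hq : ∀ x, 0 ≤ q x) (r n : ℕ) :
    ∀ (U U' F F' : Finset (Site d)) (y : Site d), U ⊆ U' → F' ⊆ F →
      chn q r n U F y ≤ chn q r n U' F' y := by
  induction n with
  | zero => intro U U' F F' y _ _; exact le_rfl
  | succ n ih =>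
    intro U U' F F' y hU hF
    simp only [chn]
    calc _ ≤ ∑ x ∈ nxt r U F y, q x * chn q r n U' (insert x F') x :=
          Finset.sum_le_sum fun x _ => mul_le_mul_of_nonneg_left
            (ih _ _ _ _ _ hU (Finset.insert_subset_insert x hF)) (hq x)
      _ ≤ _ := by
          refine Finset.sum_le_sum_of_subset_of_nonneg (fun x hx => ?_)
            fun x _ _ => mul_nonneg (hq x) (chn_nonneg hq r n _ _ _)
          rw [mem_nxt] at hx ⊢
          exact ⟨hU hx.1, hx.2.1, fun z hz => hx.2.2 z (hF hz)⟩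

lemma chn_split {q : Site d → ℝ} (hq : ∀ x, 0 ≤ q x) {r : ℕ} (n : ℕ) {U F : Finset (Site d)}
    {x y : Site d} (hx : x ∈ nxt r U F y) :
    chn q r (n + 1) (U.erase x) F y + q x * chn q r n (U.erase x) (insert x F) x
      ≤ chn q r (n + 1) U F y := by
  simp only [chn]
  rw [← Finset.sum_erase_add _ _ hx]
  have e : nxt r (U.erase x) F y = (nxt r U F y).erase x := by
    ext z; simp only [mem_nxt, Finset.mem_erase]; tauto
  rw [e]
  refine add_le_add (Finset.sum_le_sum fun z _ => ?_) ?_ <;>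
    exact mul_le_mul_of_nonneg_left
      (chn_mono hq r n _ _ _ _ _ (Finset.erase_subset _ _) le_rfl) (hq _)

lemma mix_bound {p p' a b a' b' X Y q : ℝ} (hp0 : 0 ≤ p) (hp1 : p ≤ 1) (hp0' : 0 ≤ p')
    (hp1' : p' ≤ 1) (hY : 0 ≤ Y) (hq : |p - p'| ≤ q) (h1 : |a - a'| ≤ X) (h2 : |b - b'| ≤ X)
    (h3 : |a - b'| ≤ X + Y) (h4 : |b - a'| ≤ X + Y) :
    |p * a + (1 - p) * b - (p' * a' + (1 - p') * b')| ≤ X + q * Y := by
  rw [abs_le] at *
  rcases le_total p' p with h | h
  · have e : p * a + (1 - p) * b - (p' * a' + (1 - p') * b')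
        = p' * (a - a') + (1 - p) * (b - b') + (p - p') * (a - b') := by ring
    have k := mul_le_mul_of_nonneg_right hq.2 hY
    rw [e]
    constructor
    · nlinarith [mul_le_mul_of_nonneg_left h1.1 hp0', mul_le_mul_of_nonneg_left h2.1
        (sub_nonneg.2 hp1), mul_le_mul_of_nonneg_left h3.1 (sub_nonneg.2 h)]
    · nlinarith [mul_le_mul_of_nonneg_left h1.2 hp0', mul_le_mul_of_nonneg_left h2.2
        (sub_nonneg.2 hp1), mul_le_mul_of_nonneg_left h3.2 (sub_nonneg.2 h)]
  · have e : p * a + (1 - p) * b - (p' * a' + (1 - p') * b')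
        = p * (a - a') + (1 - p') * (b - b') + (p' - p) * (b - a') := by ring
    have k := mul_le_mul_of_nonneg_right hq.1 hY
    rw [e]
    constructor
    · nlinarith [mul_le_mul_of_nonneg_left h1.1 hp0, mul_le_mul_of_nonneg_left h2.1
        (sub_nonneg.2 hp1'), mul_le_mul_of_nonneg_left h4.1 (sub_nonneg.2 h)]
    · nlinarith [mul_le_mul_of_nonneg_left h1.2 hp0, mul_le_mul_of_nonneg_left h2.2
        (sub_nonneg.2 hp1'), mul_le_mul_of_nonneg_left h4.2 (sub_nonneg.2 h)]

lemma up_nonneg {ι : Type} (x : ι) (σ : ι → Bool) : 0 ≤ up x σ := by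
  unfold up; split_ifs <;> norm_num

lemma up_le_one {ι : Type} (x : ι) (σ : ι → Bool) : up x σ ≤ 1 := by
  unfold up; split_ifs <;> norm_num

lemma chain_bound (β : ℝ) (J : Edge d → ℝ) (Λ Δ : Finset (Site d)) {q : Site d → ℝ}
    (hq : ∀ x, 0 ≤ q x) (r : ℕ)
    (hinf : ∀ U, U ⊆ Λ → ∀ x ∈ U, ∀ τ τ' : Config d, (∀ y, dist1 y x ≤ r → y ∉ U → τ y = τ' y) →
      |gam (wt β J Λ) U (up x) τ - gam (wt β J Λ) U (up x) τ'| ≤ q x)
    {f : Config d → ℝ} (hf : Dep Δ f) (hf0 : ∀ σ, 0 ≤ f σ) (hf1 : ∀ σ, f σ ≤ 1) (n : ℕ) :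
    ∀ U : Finset (Site d), U.card = n → U ⊆ Λ → ∀ (D : Finset (Site d)) (ν : Site d → ℕ)
      (τ τ' : Config d), (∀ y, y ∉ D → τ y = τ' y) →
      (∀ y ∈ D, ∀ w ∈ Δ, ν y * (r + 1) ≤ dist1 y w) →
      |gam (wt β J Λ) U f τ - gam (wt β J Λ) U f τ'| ≤ ∑ y ∈ D, chn q r (ν y) U D y := by
  have hW := wt_pos β J Λ
  induction n using Nat.strong_induction_on with
  | _ n ih =>
  intro U hUn hU D ν τ τ' hτ hν
  by_cases h0 : ∃ y ∈ D, ν y = 0
  · obtain ⟨y, hy, hy0⟩ := h0
    have h1 : chn q r (ν y) U D y ≤ ∑ y ∈ D, chn q r (ν y) U D y :=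
      Finset.single_le_sum (f := fun y => chn q r (ν y) U D y)
        (fun y _ => chn_nonneg hq r _ _ _ _) hy
    rw [hy0] at h1
    refine le_trans (abs_gam_sub_le hW fun σ _ σ' _ => ?_) h1
    simp only [chn]
    rw [abs_le]; constructor <;> linarith [hf0 σ, hf1 σ, hf0 σ', hf1 σ']
  have hν1 : ∀ y ∈ D, ∀ w ∈ Δ, r < dist1 w y := by
    intro y hy w hw
    have h1 := hν y hy w hw
    have h2 : ν y ≠ 0 := fun h => h0 ⟨y, hy, h⟩
    have h3 : 1 * (r + 1) ≤ ν y * (r + 1) := Nat.mul_le_mul_right _ (by omega)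
    rw [dist1_comm]; omega
  by_cases h1 : ∃ y ∈ D, ∃ x, x ∈ nxt r U D y
  · obtain ⟨y₀, hy₀, x, hx⟩ := h1
    obtain ⟨hxU, hxy, hxD⟩ := mem_nxt.1 hx
    have hxD' : x ∉ D := fun h => by have := hxD x h; rw [dist1_self] at this; omega
    obtain ⟨m, hm⟩ : ∃ m, ν y₀ = m + 1 :=
      Nat.exists_eq_succ_of_ne_zero fun h => h0 ⟨y₀, hy₀, h⟩
    have hcard : (U.erase x).card < n := by
      rw [← hUn]; exact Finset.card_erase_lt_of_mem hxU
    have hsub : U.erase x ⊆ Λ := (Finset.erase_subset _ _).trans hU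
    set X := ∑ y ∈ D, chn q r (ν y) (U.erase x) D y with hX
    set Y := chn q r m (U.erase x) (insert x D) x with hY
    have same : ∀ b, |gam (wt β J Λ) (U.erase x) f (update τ x b)
        - gam (wt β J Λ) (U.erase x) f (update τ' x b)| ≤ X := by
      intro b
      refine ih _ hcard _ rfl hsub D ν _ _ (fun y hy => ?_) hν
      by_cases hyx : y = x
      · subst hyx; simp
      · rw [update_of_ne hyx, update_of_ne hyx, hτ y hy]
    have diff : ∀ b b', |gam (wt β J Λ) (U.erase x) f (update τ x b)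
        - gam (wt β J Λ) (U.erase x) f (update τ' x b')| ≤ X + Y := by
      intro b b'
      refine (ih _ hcard _ rfl hsub (insert x D) (update ν x m) _ _ (fun y hy => ?_)
        fun y hy w hw => ?_).trans ?_
      · rw [Finset.mem_insert, not_or] at hy
        rw [update_of_ne hy.1, update_of_ne hy.1, hτ y hy.2]
      · rcases Finset.mem_insert.1 hy with rfl | hy'
        · rw [update_self]
          have a1 := hν y₀ hy₀ w hw
          have a2 := dist1_triangle y₀ y w
          rw [dist1_comm y₀ y, hxy] at a2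
          rw [hm, add_mul] at a1
          omega
        · rw [update_of_ne (by rintro rfl; exact hxD' hy')]
          exact hν y hy' w hw
      · rw [Finset.sum_insert hxD', update_self, add_comm]
        refine add_le_add (Finset.sum_le_sum fun y hy => ?_) le_rfl
        rw [update_of_ne (by rintro rfl; exact hxD' hy)]
        exact chn_mono hq r _ _ _ _ _ _ le_rfl (Finset.subset_insert _ _)
    have hp := hinf U hU x hxU τ τ' fun y hy _ => hτ y fun hyD => by
      have := hxD y hyD; rw [dist1_comm] at this; omega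
    rw [gam_split hW hxU f τ, gam_split hW hxU f τ']
    refine (mix_bound (le_gam hW fun σ _ => up_nonneg x σ) (gam_le hW fun σ _ => up_le_one x σ)
      (le_gam hW fun σ _ => up_nonneg x σ) (gam_le hW fun σ _ => up_le_one x σ)
      (chn_nonneg hq r _ _ _ _) hp (same true) (same false) (diff true false)
      (diff false true)).trans ?_
    rw [hX, ← Finset.sum_erase_add _ _ hy₀, ← Finset.sum_erase_add _ _ hy₀, add_assoc, hm]
    exact add_le_add (Finset.sum_le_sum fun y _ =>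
      chn_mono hq r _ _ _ _ _ _ (Finset.erase_subset _ _) le_rfl) (chn_split hq m hx)
  · set U₂ := U.filter fun x => ∀ y ∈ D, r < dist1 x y with hU₂
    have hsub : U₂ ⊆ U := Finset.filter_subset _ _
    rw [← gam_gam hW hsub f τ, ← gam_gam hW hsub f τ']
    refine le_trans (abs_gam_sub_le hW (c := 0) fun σ hσ σ' hσ' => ?_)
      (Finset.sum_nonneg fun y _ => chn_nonneg hq r _ _ _ _)
    have key : ∀ z, (∀ y ∈ D, r < dist1 z y) → z ∉ U₂ → σ z = σ' z := by
      intro z hz hz2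
      have hzU : z ∉ U := fun h => hz2 (Finset.mem_filter.2 ⟨h, hz⟩)
      have hzD : z ∉ D := fun h => by have := hz z h; rw [dist1_self] at this; omega
      rw [mem_confs.1 hσ z hzU, mem_confs.1 hσ' z hzU, hτ z hzD]
    rw [gam_loc β J (hsub.trans hU) hf (τ := σ) (τ' := σ') (fun x hx k hk => key _ ?_ hk)
      fun w hw hw2 => key w (fun y hy => hν1 y hy w hw) hw2]
    · simp
    · intro y hy
      obtain ⟨hxU, hxD⟩ := Finset.mem_filter.1 hx
      have a1 := hxD y hy
      have a2 : dist1 x y ≠ r + 1 := fun h => h1 ⟨y, hy, x, mem_nxt.2 ⟨hxU, h, hxD⟩⟩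
      rcases dist1_nbr x y k with e | e <;> omega

/-- The weight of a site. -/
noncomputable def qv (s : Edge d → Bool) (x : Site d) : ℝ :=
  dlt d + trc (ball x (64 * d)) (16 * d) s / thr d

lemma dlt_pos : 0 < dlt d := by unfold dlt; positivity

lemma thr_pos (hd : 2 ≤ d) : 0 < thr d := by
  have hd' : (0 : ℝ) < d := by exact_mod_cast (by omega : 0 < d)
  have := Real.sqrt_pos.2 hd'
  unfold thr; positivity

lemma qv_nonneg (hd : 2 ≤ d) (s : Edge d → Bool) (x : Site d) : 0 ≤ qv s x :=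
  add_nonneg dlt_pos.le (div_nonneg (trc_nonneg _ _ _) (thr_pos hd).le)

lemma chain_bound' (hd : 2 ≤ d) {β : ℝ} (hβ0 : 0 < β) (hβ : β ≤ 1 / (20 * Real.sqrt d))
    (s : Edge d → Bool) (Λ Δ D : Finset (Site d)) {f : Config d → ℝ} (hf : Dep Δ f)
    (hf0 : ∀ σ, 0 ≤ f σ) (hf1 : ∀ σ, f σ ≤ 1) (n : ℕ)
    (hD : ∀ x ∈ Λ, ∀ k, nbr x k ∉ Λ → nbr x k ∈ D) (hΔ : Δ ⊆ Λ)
    (hn : ∀ y ∈ D, ∀ w ∈ Δ, n * (2 * (64 * d) + 1) ≤ dist1 y w) (τ τ' : Config d) :
    |gam (wt β (fun e => spin (s e)) Λ) Λ f τ - gam (wt β (fun e => spin (s e)) Λ) Λ f τ'|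
      ≤ ∑ y ∈ D, chn (qv s) (2 * (64 * d)) n Λ D y := by
  have hW := wt_pos β (fun e => spin (s e)) Λ
  let τ'' : Config d := fun y => if y ∈ D then τ' y else τ y
  rw [gam_loc β _ (Finset.Subset.refl Λ) hf (τ := τ') (τ' := τ'')
    (fun x hx k hk => by simp [τ'', hD x hx k hk]) fun w hw hw' => absurd (hΔ hw) hw']
  refine chain_bound β _ Λ Δ (qv_nonneg hd s) (2 * (64 * d)) ?_ hf hf0 hf1 _ Λ rfl
    (Finset.Subset.refl Λ) D (fun _ => n) τ τ'' (fun y hy => by simp [τ'', hy]) hn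
  intro U hU x hx σ σ' hσ
  by_cases hgood : trc (ball x (64 * d)) (16 * d) s ≤ thr d
  · refine (influence hd hβ0 hβ s hU hx hgood fun y hy => hσ y (by omega)).trans ?_
    exact le_add_of_nonneg_right (div_nonneg (trc_nonneg _ _ _) (thr_pos hd).le)
  · have h1 : 1 ≤ qv s x := by
      have : 1 ≤ trc (ball x (64 * d)) (16 * d) s / thr d := by
        rw [one_le_div (thr_pos hd)]; exact (not_le.1 hgood).le
      unfold qv; linarith [dlt_pos (d := d)]
    refine le_trans (abs_gam_sub_le hW fun ζ _ ζ' _ => ?_) h1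
    rw [abs_le]
    constructor <;> linarith [up_nonneg x ζ, up_le_one x ζ, up_nonneg x ζ', up_le_one x ζ']

end Pool.Agent.P.MP_81d17b_pr
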