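import Mathlib

/-! Definitions for the Edwards-Anderson model on the hypercubic lattice. -/

open MeasureTheory

namespace Pool.Agent.P.MP_81d17b_pr

/-- Vertices of the hypercubic lattice. -/
abbrev Site (d : ℕ) : Type := Fin d → ℤ

/-- The pair `(x, i)` names the nearest-neighbour edge joining `x` and `x + e_i`;
every edge has exactly one such name. -/
abbrev Edge (d : ℕ) : Type := Site d × Fin d

/-- The second endpoint `x + e_i` of the edge `(x, i)`. -/
def tip {d : ℕ} (e : Edge d) : Site d := e.1 + Pi.single e.2 1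

/-- Spin configurations: `true` stands for `+1`, `false` for `-1`. -/
abbrev Config (d : ℕ) : Type := Site d → Bool

/-- The value of a spin. -/
def spin (b : Bool) : ℝ := if b then 1 else -1

/-- The configuration equal to `η` in `Λ` and to `τ` outside `Λ`. -/
def glue {ι : Type} [DecidableEq ι] (Λ : Finset ι) (η : Λ → Bool) (τ : ι → Bool) : ι → Bool :=
  fun x => if h : x ∈ Λ then η ⟨x, h⟩ else τ x

/-- The sum of `J_e σ_x σ_y` over the edges `e = ⟨x, y⟩` with an endpoint in `Λ`. -/
noncomputable def energy {d : ℕ} (J : Edge d → ℝ) (Λ : Finset (Site d)) (σ : Config d) : ℝ :=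
  ∑ᶠ e ∈ {e : Edge d | e.1 ∈ Λ ∨ tip e ∈ Λ}, J e * spin (σ e.1) * spin (σ (tip e))

/-- The probability of the spins `η` in `Λ` under the Edwards-Anderson measure on `Λ` with
boundary condition `τ`, inverse temperature `β` and couplings `J`. -/
noncomputable def boxProb {d : ℕ} (β : ℝ) (J : Edge d → ℝ) (Λ : Finset (Site d)) (τ : Config d)
    (η : Λ → Bool) : ℝ :=
  Real.exp (β * energy J Λ (glue Λ η τ)) /
    ∑ ζ : Λ → Bool, Real.exp (β * energy J Λ (glue Λ ζ τ))

/-- Gibbs state (DLR condition): a probability measure such that for every finite box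
`Λ = [a, b]` and every `η`, the conditional probability that the spins in `Λ` equal `η`, given
the spins outside `Λ`, is `boxProb β J Λ τ η` for almost every `τ`. -/
def IsGibbs {d : ℕ} (β : ℝ) (J : Edge d → ℝ) (π : Measure (Config d)) : Prop :=
  IsProbabilityMeasure π ∧
    ∀ (a b : Site d) (η : Finset.Icc a b → Bool),
      condExp (cylinderEvents ((Finset.Icc a b : Set (Site d))ᶜ)) π
          (Set.indicator {σ : Config d | ∀ x : Finset.Icc a b, σ x = η x} fun _ => (1 : ℝ))
        =ᵐ[π] fun τ => boxProb β J (Finset.Icc a b) τ η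

end Pool.Agent.P.MP_81d17b_pr
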