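import Pool.Agent.P.MP_81d17b_pr.Defs

/-! Weighted averages over the configurations that agree with a given one off a finite set. -/

namespace Pool.Agent.P.MP_81d17b_pr

open Finset

set_option linter.unusedSectionVars false

variable {ι : Type} [DecidableEq ι]

lemma glue_of_mem {U : Finset ι} (η : U → Bool) (τ : ι → Bool) {x : ι} (h : x ∈ U) :
    glue U η τ x = η ⟨x, h⟩ := by simp [glue, h]

lemma glue_of_notMem {U : Finset ι} (η : U → Bool) (τ : ι → Bool) {x : ι} (h : x ∉ U) :
    glue U η τ x = τ x := by simp [glue, h]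

lemma glue_injective (U : Finset ι) (τ : ι → Bool) :
    Function.Injective (fun η : U → Bool => glue U η τ) := by
  intro η ζ h
  funext x
  have := congrFun h x.1
  simpa [glue, x.2] using this

/-- Configurations equal to `τ` off `U`. -/
def confs (U : Finset ι) (τ : ι → Bool) : Finset (ι → Bool) :=
  Finset.univ.map ⟨fun η : U → Bool => glue U η τ, glue_injective U τ⟩

lemma mem_confs {U : Finset ι} {τ σ : ι → Bool} : σ ∈ confs U τ ↔ ∀ x, x ∉ U → σ x = τ x := by
  constructor
  · intro h x hx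
    obtain ⟨η, -, rfl⟩ := Finset.mem_map.1 h
    exact glue_of_notMem η τ hx
  · intro h
    refine Finset.mem_map.2 ⟨fun x => σ x.1, Finset.mem_univ _, ?_⟩
    funext x
    by_cases hx : x ∈ U
    · simp [glue, hx]
    · simp [glue, hx, h x hx]

lemma self_mem_confs (U : Finset ι) (τ : ι → Bool) : τ ∈ confs U τ := mem_confs.2 fun _ _ => rfl

lemma sum_confs (U : Finset ι) (τ : ι → Bool) (F : (ι → Bool) → ℝ) :
    ∑ σ ∈ confs U τ, F σ = ∑ η : U → Bool, F (glue U η τ) := by
  unfold confs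
  rw [Finset.sum_map]
  rfl

lemma confs_congr {U : Finset ι} {τ τ' : ι → Bool} (h : τ' ∈ confs U τ) :
    confs U τ' = confs U τ := by
  ext σ
  simp only [mem_confs] at h ⊢
  constructor
  · intro h1 x hx; rw [h1 x hx, h x hx]
  · intro h1 x hx; rw [h1 x hx, h x hx]

lemma card_confs (U : Finset ι) (τ : ι → Bool) : (confs U τ).card = 2 ^ U.card := by
  unfold confs
  simp

lemma sum_confs_flip {U : Finset ι} {x : ι} (hx : x ∈ U) (τ : ι → Bool) (F : (ι → Bool) → ℝ) :
    ∑ σ ∈ confs U τ, F (Function.update σ x (!σ x)) = ∑ σ ∈ confs U τ, F σ := by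
  have hmem : ∀ σ ∈ confs U τ, Function.update σ x (!σ x) ∈ confs U τ := by
    intro σ hσ
    rw [mem_confs] at hσ ⊢
    intro y hy
    rw [Function.update_of_ne (by rintro rfl; exact hy hx)]
    exact hσ y hy
  have hinv : ∀ σ : ι → Bool, Function.update (Function.update σ x (!σ x)) x
      (!(Function.update σ x (!σ x) x)) = σ := by
    intro σ; simp
  exact Finset.sum_nbij' (fun σ => Function.update σ x (!σ x))
    (fun σ => Function.update σ x (!σ x)) hmem hmem (fun σ _ => hinv σ) (fun σ _ => hinv σ)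
    (fun σ _ => rfl)

/-- The partition sum. -/
noncomputable def part (W : (ι → Bool) → ℝ) (U : Finset ι) (τ : ι → Bool) : ℝ :=
  ∑ σ ∈ confs U τ, W σ

/-- The `W`-weighted average of `f` over the configurations equal to `τ` off `U`. -/
noncomputable def gam (W : (ι → Bool) → ℝ) (U : Finset ι) (f : (ι → Bool) → ℝ) (τ : ι → Bool) : ℝ :=
  (∑ σ ∈ confs U τ, W σ * f σ) / part W U τ

variable {W : (ι → Bool) → ℝ}

lemma part_pos (hW : ∀ σ, 0 < W σ) (U : Finset ι) (τ : ι → Bool) : 0 < part W U τ :=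
  Finset.sum_pos (fun σ _ => hW σ) ⟨τ, self_mem_confs U τ⟩

lemma part_congr {U : Finset ι} {τ τ' : ι → Bool} (h : τ' ∈ confs U τ) :
    part W U τ' = part W U τ := by
  unfold part; rw [confs_congr h]

lemma gam_congr_bc {U : Finset ι} {τ τ' : ι → Bool} (h : τ' ∈ confs U τ)
    (f : (ι → Bool) → ℝ) : gam W U f τ' = gam W U f τ := by
  unfold gam; rw [confs_congr h, part_congr h]

lemma gam_congr {U : Finset ι} {τ : ι → Bool} {f g : (ι → Bool) → ℝ}
    (h : ∀ σ ∈ confs U τ, f σ = g σ) : gam W U f τ = gam W U g τ := by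
  unfold gam
  rw [Finset.sum_congr rfl fun σ hσ => by rw [h σ hσ]]

lemma gam_const (hW : ∀ σ, 0 < W σ) (U : Finset ι) (τ : ι → Bool) (c : ℝ) :
    gam W U (fun _ => c) τ = c := by
  unfold gam
  rw [← Finset.sum_mul]
  have := (part_pos hW U τ).ne'
  change part W U τ * c / part W U τ = c
  field_simp

lemma gam_add (U : Finset ι) (τ : ι → Bool) (f g : (ι → Bool) → ℝ) :
    gam W U (fun σ => f σ + g σ) τ = gam W U f τ + gam W U g τ := by
  unfold gam
  simp only [mul_add, Finset.sum_add_distrib, add_div]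

lemma gam_sub (U : Finset ι) (τ : ι → Bool) (f g : (ι → Bool) → ℝ) :
    gam W U (fun σ => f σ - g σ) τ = gam W U f τ - gam W U g τ := by
  unfold gam
  simp only [mul_sub, Finset.sum_sub_distrib, sub_div]

lemma gam_mul_left (U : Finset ι) (τ : ι → Bool) (c : ℝ) (f : (ι → Bool) → ℝ) :
    gam W U (fun σ => c * f σ) τ = c * gam W U f τ := by
  unfold gam
  rw [← mul_div_assoc, Finset.mul_sum]
  congr 1
  exact Finset.sum_congr rfl fun σ _ => by ring

lemma gam_sum {κ : Type} (S : Finset κ) (U : Finset ι) (τ : ι → Bool)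
    (f : κ → (ι → Bool) → ℝ) :
    gam W U (fun σ => ∑ k ∈ S, f k σ) τ = ∑ k ∈ S, gam W U (f k) τ := by
  unfold gam
  simp only [Finset.mul_sum]
  rw [Finset.sum_comm, Finset.sum_div]

lemma gam_mono (hW : ∀ σ, 0 < W σ) {U : Finset ι} {τ : ι → Bool} {f g : (ι → Bool) → ℝ}
    (h : ∀ σ ∈ confs U τ, f σ ≤ g σ) : gam W U f τ ≤ gam W U g τ := by
  unfold gam
  apply div_le_div_of_nonneg_right _ (part_pos hW U τ).le
  exact Finset.sum_le_sum fun σ hσ => mul_le_mul_of_nonneg_left (h σ hσ) (hW σ).le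

lemma gam_le (hW : ∀ σ, 0 < W σ) {U : Finset ι} {τ : ι → Bool} {f : (ι → Bool) → ℝ} {c : ℝ}
    (h : ∀ σ ∈ confs U τ, f σ ≤ c) : gam W U f τ ≤ c := by
  rw [← gam_const hW U τ c]; exact gam_mono hW h

lemma le_gam (hW : ∀ σ, 0 < W σ) {U : Finset ι} {τ : ι → Bool} {f : (ι → Bool) → ℝ} {c : ℝ}
    (h : ∀ σ ∈ confs U τ, c ≤ f σ) : c ≤ gam W U f τ := by
  rw [← gam_const hW U τ c]; exact gam_mono hW h

/-- Consistency of the averages. -/
lemma gam_gam (hW : ∀ σ, 0 < W σ) {U U' : Finset ι} (hU : U' ⊆ U) (f : (ι → Bool) → ℝ)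
    (τ : ι → Bool) : gam W U (gam W U' f) τ = gam W U f τ := by
  unfold gam
  congr 1
  have key : ∀ σ σ' : ι → Bool, (σ ∈ confs U τ ∧ σ' ∈ confs U' σ) ↔
      (σ ∈ confs U' σ' ∧ σ' ∈ confs U τ) := by
    intro σ σ'
    simp only [mem_confs]
    constructor
    · rintro ⟨h1, h2⟩
      exact ⟨fun x hx => (h2 x hx).symm,
        fun x hx => by rw [h2 x fun h => hx (hU h), h1 x hx]⟩
    · rintro ⟨h1, h2⟩
      exact ⟨fun x hx => by rw [h1 x fun h => hx (hU h), h2 x hx],
        fun x hx => (h1 x hx).symm⟩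
  calc ∑ σ ∈ confs U τ, W σ * ((∑ σ' ∈ confs U' σ, W σ' * f σ') / part W U' σ)
      = ∑ σ ∈ confs U τ, ∑ σ' ∈ confs U' σ, W σ * (W σ' * f σ') / part W U' σ := by
        refine Finset.sum_congr rfl fun σ _ => ?_
        rw [Finset.sum_div, Finset.mul_sum]
        exact Finset.sum_congr rfl fun σ' _ => by ring
    _ = ∑ σ' ∈ confs U τ, ∑ σ ∈ confs U' σ', W σ * (W σ' * f σ') / part W U' σ :=
        Finset.sum_comm' key
    _ = ∑ σ' ∈ confs U τ, W σ' * f σ' := by
        refine Finset.sum_congr rfl fun σ' _ => ?_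
        have h1 : ∀ σ ∈ confs U' σ', W σ * (W σ' * f σ') / part W U' σ
            = W σ * ((W σ' * f σ') / part W U' σ') := by
          intro σ hσ
          rw [part_congr hσ]; ring
        rw [Finset.sum_congr rfl h1, ← Finset.sum_mul]
        have := (part_pos hW U' σ').ne'
        change part W U' σ' * _ = _
        field_simp

lemma abs_gam_sub_le (hW : ∀ σ, 0 < W σ) {U : Finset ι} {τ τ' : ι → Bool}
    {g : (ι → Bool) → ℝ} {c : ℝ}
    (h : ∀ σ ∈ confs U τ, ∀ σ' ∈ confs U τ', |g σ - g σ'| ≤ c) :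
    |gam W U g τ - gam W U g τ'| ≤ c := by
  have h1 : ∀ σ' ∈ confs U τ', gam W U g τ - c ≤ g σ' := by
    intro σ' hσ'
    have : gam W U g τ ≤ g σ' + c :=
      gam_le hW fun σ hσ => by have := (abs_le.1 (h σ hσ σ' hσ')).2; linarith
    linarith
  have h2 : ∀ σ' ∈ confs U τ', g σ' ≤ gam W U g τ + c := by
    intro σ' hσ'
    have : g σ' - c ≤ gam W U g τ :=
      le_gam hW fun σ hσ => by have := (abs_le.1 (h σ hσ σ' hσ')).1; linarith
    linarith
  have h3 := le_gam hW h1
  have h4 := gam_le hW h2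
  rw [abs_le]; constructor <;> linarith

/-- The indicator of an up spin at `x`. -/
noncomputable def up (x : ι) (σ : ι → Bool) : ℝ := if σ x then 1 else 0

/-- Splitting according to the spin at one site. -/
lemma gam_split (hW : ∀ σ, 0 < W σ) {U : Finset ι} {x : ι} (hx : x ∈ U) (f : (ι → Bool) → ℝ)
    (τ : ι → Bool) :
    gam W U f τ = gam W U (up x) τ * gam W (U.erase x) f (Function.update τ x true)
      + (1 - gam W U (up x) τ) * gam W (U.erase x) f (Function.update τ x false) := by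
  rw [← gam_gam hW (Finset.erase_subset x U) f τ]
  set a := gam W (U.erase x) f (Function.update τ x true)
  set b := gam W (U.erase x) f (Function.update τ x false)
  have h : ∀ σ ∈ confs U τ, gam W (U.erase x) f σ = (a - b) * up x σ + b := by
    intro σ hσ
    have hm : σ ∈ confs (U.erase x) (Function.update τ x (σ x)) := by
      rw [mem_confs] at hσ ⊢
      intro y hy
      by_cases hyx : y = x
      · subst hyx; simp
      · rw [Function.update_of_ne hyx]
        exact hσ y fun h => hy (Finset.mem_erase.2 ⟨hyx, h⟩)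
    rw [gam_congr_bc hm]
    cases hs : σ x <;> simp [up, hs, a, b]
  rw [gam_congr h, gam_add, gam_mul_left, gam_const hW]
  ring

/-- Changing the weight by a factor that does not depend on the spins in `U`. -/
lemma gam_weight {W' C : (ι → Bool) → ℝ} {U : Finset ι} {τ : ι → Bool}
    (hC : C τ ≠ 0) (h : ∀ σ ∈ confs U τ, W' σ = C τ * W σ) (f : (ι → Bool) → ℝ) :
    gam W' U f τ = gam W U f τ := by
  unfold gam part
  have h1 : ∑ σ ∈ confs U τ, W' σ * f σ = C τ * ∑ σ ∈ confs U τ, W σ * f σ := by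
    rw [Finset.mul_sum]
    exact Finset.sum_congr rfl fun σ hσ => by rw [h σ hσ]; ring
  have h2 : ∑ σ ∈ confs U τ, W' σ = C τ * ∑ σ ∈ confs U τ, W σ := by
    rw [Finset.mul_sum]
    exact Finset.sum_congr rfl fun σ hσ => by rw [h σ hσ]
  rw [h1, h2, mul_div_mul_left _ _ hC]

lemma gam_eq_glue (U : Finset ι) (f : (ι → Bool) → ℝ) (τ : ι → Bool) :
    gam W U f τ = (∑ η : U → Bool, W (glue U η τ) * f (glue U η τ)) /
      ∑ η : U → Bool, W (glue U η τ) := by
  unfold gam part
  rw [sum_confs, sum_confs]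

/-- If weight and function do not see the difference between two boundary conditions, the
averages agree. -/
lemma gam_local {U : Finset ι} {τ τ' : ι → Bool} {f : (ι → Bool) → ℝ}
    (hW : ∀ η, W (glue U η τ) = W (glue U η τ'))
    (hf : ∀ η, f (glue U η τ) = f (glue U η τ')) : gam W U f τ = gam W U f τ' := by
  rw [gam_eq_glue, gam_eq_glue]
  simp only [hW, hf]

/-- `F` depends only on the coordinates in `S`. -/
def Dep (S : Finset ι) (F : (ι → Bool) → ℝ) : Prop :=
  ∀ σ σ', (∀ x ∈ S, σ x = σ' x) → F σ = F σ'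

lemma Dep.mono {S T : Finset ι} {F : (ι → Bool) → ℝ} (h : Dep S F) (hST : S ⊆ T) : Dep T F :=
  fun σ σ' hσ => h σ σ' fun x hx => hσ x (hST hx)

/-- The uniform average over the coordinates in `E`. -/
noncomputable def avg (E : Finset ι) (F : (ι → Bool) → ℝ) : ℝ :=
  gam (fun _ => 1) E F (fun _ => true)

lemma one_pos' : ∀ _ : ι → Bool, (0 : ℝ) < 1 := fun _ => one_pos

lemma gam_one_of_dep {A : Finset ι} {F : (ι → Bool) → ℝ} (hF : Dep A F) (τ : ι → Bool) :
    gam (fun _ => 1) A F τ = avg A F := by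
  unfold avg
  refine gam_local (fun _ => rfl) fun η => hF _ _ fun x hx => ?_
  rw [glue_of_mem _ _ hx, glue_of_mem _ _ hx]

lemma avg_of_dep {A E : Finset ι} (hA : A ⊆ E) {F : (ι → Bool) → ℝ} (hF : Dep A F) :
    avg E F = avg A F := by
  have := gam_gam (W := fun _ => 1) one_pos' hA F (fun _ => true)
  unfold avg at *
  rw [← this, gam_congr (g := fun _ => avg A F) fun σ _ => gam_one_of_dep hF σ,
    gam_const one_pos']
  rfl

/-- Independence of functions of disjoint sets of coordinates. -/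
lemma avg_mul {A B E : Finset ι} (hA : A ⊆ E) (hAB : Disjoint A B) {F G : (ι → Bool) → ℝ}
    (hF : Dep A F) (hG : Dep B G) :
    avg E (fun s => F s * G s) = avg E F * avg E G := by
  rw [avg_of_dep hA hF]
  have h1 := gam_gam (W := fun _ => 1) one_pos' hA (fun s => F s * G s) (fun _ => true)
  have h2 : ∀ σ : ι → Bool, gam (fun _ => 1) A (fun s => F s * G s) σ = avg A F * G σ := by
    intro σ
    have : ∀ s ∈ confs A σ, F s * G s = G σ * F s := by
      intro s hs
      rw [mem_confs] at hs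
      rw [hG s σ fun x hx => hs x fun h => (Finset.disjoint_left.1 hAB h) hx]
      ring
    rw [gam_congr this, gam_mul_left, gam_one_of_dep hF]
    ring
  calc avg E (fun s => F s * G s)
      = gam (fun _ => 1) E (fun σ => avg A F * G σ) (fun _ => true) := by
        unfold avg; rw [← h1]; exact gam_congr fun σ _ => h2 σ
    _ = avg A F * avg E G := gam_mul_left _ _ _ _

end Pool.Agent.P.MP_81d17b_pr
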