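import Pool.Agent.P.MP_81d17b_pr.Prob

/-! Existence and uniqueness of the Gibbs state. -/

namespace Pool.Agent.P.MP_81d17b_pr

open Finset Function MeasureTheory Filter Topology

variable {d : ℕ}

/-- A basic cylinder set. -/
def cyl (T : Finset (Site d)) (ζ : Config d) : Set (Config d) := {σ | ∀ x ∈ T, σ x = ζ x}

/-- The basic cylinder sets based in `Δ`. -/
def cyls (Δ : Set (Site d)) : Set (Set (Config d)) :=
  {s | ∃ (T : Finset (Site d)) (ζ : Config d), (T : Set (Site d)) ⊆ Δ ∧ s = cyl T ζ}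

lemma isPiSystem_cyls (Δ : Set (Site d)) : IsPiSystem (cyls Δ) := by
  rintro _ ⟨T, ζ, hT, rfl⟩ _ ⟨T', ζ', hT', rfl⟩ ⟨σ, h1, h2⟩
  refine ⟨T ∪ T', σ, by rw [Finset.coe_union]; exact Set.union_subset hT hT', ?_⟩
  ext ρ
  simp only [cyl, Set.mem_inter_iff, Set.mem_ofPred_eq, Finset.mem_union] at h1 h2 ⊢
  constructor
  · rintro ⟨a, b⟩ x (hx | hx)
    · rw [a x hx, h1 x hx]
    · rw [b x hx, h2 x hx]
  · intro h
    exact ⟨fun x hx => by rw [h x (Or.inl hx), h1 x hx],
      fun x hx => by rw [h x (Or.inr hx), h2 x hx]⟩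

lemma measurableSet_cyl {Δ : Set (Site d)} {T : Finset (Site d)} (hT : (T : Set (Site d)) ⊆ Δ)
    (ζ : Config d) : MeasurableSet[cylinderEvents Δ] (cyl T ζ) := by
  have : cyl T ζ = ⋂ x ∈ T, (fun σ : Config d => σ x) ⁻¹' {ζ x} := by
    ext σ; simp [cyl]
  rw [this]
  exact Finset.measurableSet_biInter T fun x hx =>
    measurable_cylinderEvent_apply (X := fun _ : Site d => Bool) (hT hx)
      (measurableSet_singleton _)

lemma cylinderEvents_eq (Δ : Set (Site d)) :
    cylinderEvents (X := fun _ : Site d => Bool) Δ = MeasurableSpace.generateFrom (cyls Δ) := by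
  apply le_antisymm
  · refine iSup₂_le fun x hx => ?_
    rw [← measurable_iff_comap_le]
    refine @measurable_to_countable' _ _ _ _ (MeasurableSpace.generateFrom (cyls Δ)) _ fun b => ?_
    refine MeasurableSpace.measurableSet_generateFrom ⟨{x}, fun _ => b, by simpa using hx, ?_⟩
    ext σ; simp [cyl]
  · refine MeasurableSpace.generateFrom_le ?_
    rintro _ ⟨T, ζ, hT, rfl⟩
    exact measurableSet_cyl hT ζ

lemma Dep.eq_comp {S : Finset (Site d)} {F : Config d → ℝ} (h : Dep S F) :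
    F = (fun η : S → Bool => F (glue S η fun _ => true)) ∘ fun (σ : Config d) (x : S) => σ x := by
  funext σ
  exact h _ _ fun x hx => (glue_of_mem (fun x : S => σ x) _ hx).symm

lemma Dep.measurable_cyl {S : Finset (Site d)} {F : Config d → ℝ} (h : Dep S F)
    {Δ : Set (Site d)} (hS : (S : Set (Site d)) ⊆ Δ) : Measurable[cylinderEvents Δ] F := by
  rw [h.eq_comp]
  refine (measurable_of_finite _).comp ?_
  rw [@measurable_pi_iff]
  exact fun x => measurable_cylinderEvent_apply (X := fun _ : Site d => Bool) (hS x.2)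

lemma Dep.continuous {S : Finset (Site d)} {F : Config d → ℝ} (h : Dep S F) : Continuous F := by
  rw [h.eq_comp]
  exact continuous_of_discreteTopology.comp (continuous_pi fun x => continuous_apply _)

lemma Dep.integrable {S : Finset (Site d)} {F : Config d → ℝ} (h : Dep S F)
    (π : Measure (Config d)) [IsFiniteMeasure π] : Integrable F π :=
  (BoundedContinuousFunction.mkOfCompact ⟨F, h.continuous⟩).integrable π

lemma Dep.mul {S T : Finset (Site d)} {F G : Config d → ℝ} (hF : Dep S F) (hG : Dep T G) :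
    Dep (S ∪ T) fun σ => F σ * G σ := by
  intro σ σ' h
  simp only
  rw [hF σ σ' fun x hx => h x (Finset.mem_union_left _ hx),
    hG σ σ' fun x hx => h x (Finset.mem_union_right _ hx)]

lemma dep_cyl (T : Finset (Site d)) (ζ : Config d) :
    Dep T ((cyl T ζ).indicator fun _ => (1 : ℝ)) := by
  intro σ σ' h
  have : σ ∈ cyl T ζ ↔ σ' ∈ cyl T ζ := forall₂_congr fun x hx => by rw [h x hx]
  by_cases h1 : σ ∈ cyl T ζ
  · rw [Set.indicator_of_mem h1, Set.indicator_of_mem (this.1 h1)]
  · rw [Set.indicator_of_notMem h1, Set.indicator_of_notMem fun h2 => h1 (this.2 h2)]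

/-- The indicator that the spins in `Λ` equal `η`. -/
noncomputable def ind (Λ : Finset (Site d)) (η : Λ → Bool) : Config d → ℝ :=
  Set.indicator {σ : Config d | ∀ x : Λ, σ x = η x} fun _ => (1 : ℝ)

lemma dep_ind (Λ : Finset (Site d)) (η : Λ → Bool) : Dep Λ (ind Λ η) := by
  intro σ σ' h
  have : (∀ x : Λ, σ x = η x) ↔ ∀ x : Λ, σ' x = η x := forall_congr' fun x => by rw [h x x.2]
  simp only [ind, Set.indicator_apply, Set.mem_ofPred_eq, this]

lemma ind_glue (Λ : Finset (Site d)) (η ζ : Λ → Bool) (τ : Config d) :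
    ind Λ η (glue Λ ζ τ) = if ζ = η then 1 else 0 := by
  have : (∀ x : Λ, glue Λ ζ τ x = η x) ↔ ζ = η := by
    rw [funext_iff]
    exact forall_congr' fun x => by rw [glue_of_mem _ _ x.2]
  simp only [ind, Set.indicator_apply, Set.mem_ofPred_eq, this]

lemma boxProb_eq (β : ℝ) (J : Edge d → ℝ) (Λ : Finset (Site d)) (τ : Config d) (η : Λ → Bool) :
    boxProb β J Λ τ η = gam (wt β J Λ) Λ (ind Λ η) τ := by
  rw [gam_eq_glue]
  simp only [ind_glue, mul_ite, mul_one, mul_zero, Finset.sum_ite_eq', Finset.mem_univ, if_true]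
  rfl

/-- The outer boundary. -/
def bdry (Λ : Finset (Site d)) : Finset (Site d) :=
  (Λ.biUnion fun x => Finset.univ.image (nbr x)) \ Λ

lemma dep_gam (β : ℝ) (J : Edge d → ℝ) (Λ : Finset (Site d)) {f : Config d → ℝ} (hf : Dep Λ f) :
    Dep (bdry Λ) (gam (wt β J Λ) Λ f) := by
  intro τ τ' h
  refine gam_loc β J (Finset.Subset.refl Λ) hf (fun x hx k hk => h _ ?_)
    fun w hw hw' => absurd hw hw'
  simp only [bdry, Finset.mem_sdiff, Finset.mem_biUnion, Finset.mem_image, Finset.mem_univ,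
    true_and]
  exact ⟨⟨x, hx, k, rfl⟩, hk⟩

lemma eq_sum_ind {Λ : Finset (Site d)} {f : Config d → ℝ} (hf : Dep Λ f) (σ : Config d) :
    f σ = ∑ η : Λ → Bool, f (glue Λ η fun _ => true) * ind Λ η σ := by
  have h1 : ∀ η : Λ → Bool, ind Λ η σ = if (fun x : Λ => σ x) = η then 1 else 0 := by
    intro η
    rw [← ind_glue Λ η (fun x : Λ => σ x) σ]
    exact dep_ind Λ η _ _ fun x hx => (glue_of_mem (fun x : Λ => σ x) _ hx).symm
  simp only [h1, mul_ite, mul_one, mul_zero, Finset.sum_ite_eq, Finset.mem_univ, if_true]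
  exact congrFun hf.eq_comp σ

lemma IsGibbs.integral_eq {β : ℝ} {J : Edge d → ℝ} {π : Measure (Config d)} (h : IsGibbs β J π)
    (a b : Site d) {f : Config d → ℝ} (hf : Dep (Finset.Icc a b) f) :
    ∫ σ, f σ ∂π = ∫ τ, gam (wt β J (Finset.Icc a b)) (Finset.Icc a b) f τ ∂π := by
  have := h.1
  set Λ := Finset.Icc a b with hΛ
  have h1 : ∀ η : Λ → Bool, ∫ σ, ind Λ η σ ∂π = ∫ τ, gam (wt β J Λ) Λ (ind Λ η) τ ∂π := by
    intro η
    have h2 := integral_congr_ae (h.2 a b η)
    rw [integral_condExp cylinderEvents_le_pi] at h2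
    simp only [boxProb_eq] at h2
    exact h2
  have h3 : ∀ τ, gam (wt β J Λ) Λ f τ
      = ∑ η : Λ → Bool, f (glue Λ η fun _ => true) * gam (wt β J Λ) Λ (ind Λ η) τ := by
    intro τ
    rw [gam_congr fun σ _ => eq_sum_ind hf σ, gam_sum]
    exact Finset.sum_congr rfl fun η _ => gam_mul_left _ _ _ _
  simp only [h3]
  rw [integral_congr_ae (Filter.Eventually.of_forall (eq_sum_ind hf)),
    integral_finsetSum _ fun η _ => ((dep_ind Λ η).integrable π).const_mul _,
    integral_finsetSum _ fun η _ => ((dep_gam β J Λ (dep_ind Λ η)).integrable π).const_mul _]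
  exact Finset.sum_congr rfl fun η _ => by rw [integral_const_mul, integral_const_mul, h1]

lemma integral_le_of_osc {S : Finset (Site d)} {g : Config d → ℝ} (hg : Dep S g) {ε : ℝ}
    (h : ∀ τ τ', |g τ - g τ'| ≤ ε) (π π' : Measure (Config d)) [IsProbabilityMeasure π]
    [IsProbabilityMeasure π'] : ∫ τ, g τ ∂π ≤ ∫ τ, g τ ∂π' + ε := by
  have h1 : ∀ τ', ∫ τ, g τ ∂π - ε ≤ g τ' := by
    intro τ'
    have : ∫ τ, g τ ∂π ≤ ∫ _τ, (g τ' + ε) ∂π :=
      integral_mono (hg.integrable π) (integrable_const _) fun τ => by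
        have := (abs_le.1 (h τ τ')).2; simp only; linarith
    simp only [integral_const, probReal_univ, smul_eq_mul, one_mul] at this
    linarith
  have : ∫ _τ, (∫ τ, g τ ∂π - ε) ∂π' ≤ ∫ τ, g τ ∂π' :=
    integral_mono (integrable_const _) (hg.integrable π') h1
  simp only [integral_const, probReal_univ, smul_eq_mul, one_mul] at this
  linarith

theorem gibbs_unique (hd : 2 ≤ d) {β : ℝ} (hβ0 : 0 < β) (hβ : β ≤ 1 / (20 * Real.sqrt d))
    (s : Edge d → Bool) (hs : ∀ m : ℕ, ∀ ε : ℝ, 0 < ε → ∃ n, infl m n s ≤ ε)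
    {π π' : Measure (Config d)} (h : IsGibbs β (fun e => spin (s e)) π)
    (h' : IsGibbs β (fun e => spin (s e)) π') : π = π' := by
  have := h.1
  have := h'.1
  refine ext_of_generate_finite (cyls Set.univ)
    (by rw [← cylinderEvents_eq, cylinderEvents_univ]) (isPiSystem_cyls _) ?_ (by simp)
  rintro _ ⟨T, ζ, -, rfl⟩
  have hmeas : MeasurableSet (cyl T ζ) :=
    cylinderEvents_le_pi _ (measurableSet_cyl (Set.subset_univ _) ζ)
  set f : Config d → ℝ := (cyl T ζ).indicator fun _ => (1 : ℝ) with hf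
  have hf0 : ∀ σ, 0 ≤ f σ := fun σ => Set.indicator_nonneg (fun _ _ => zero_le_one) σ
  have hf1 : ∀ σ, f σ ≤ 1 := fun σ => Set.indicator_le_self' (fun _ _ => zero_le_one) σ
  obtain ⟨m, hm⟩ := exists_box T
  have hdep : Dep (box d m) f := (dep_cyl T ζ).mono hm
  have key : ∀ ε : ℝ, 0 < ε → ∫ σ, f σ ∂π ≤ ∫ σ, f σ ∂π' + ε ∧ ∫ σ, f σ ∂π' ≤ ∫ σ, f σ ∂π + ε := by
    intro ε hε
    obtain ⟨n, hn⟩ := hs m ε hε
    have hdep' : Dep (box d (sz d m n)) f := hdep.mono (box_mono (Nat.le_add_right _ _))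
    have hosc := fun τ τ' => (gam_box_le hd hβ0 hβ s m n hdep hf0 hf1 τ τ').trans hn
    rw [h.integral_eq _ _ hdep', h'.integral_eq _ _ hdep']
    exact ⟨integral_le_of_osc (dep_gam β _ _ hdep') hosc π π',
      integral_le_of_osc (dep_gam β _ _ hdep') hosc π' π⟩
  have heq : ∫ σ, f σ ∂π = ∫ σ, f σ ∂π' :=
    le_antisymm (le_of_forall_pos_le_add fun ε hε => (key ε hε).1)
      (le_of_forall_pos_le_add fun ε hε => (key ε hε).2)
  rw [hf, integral_indicator_const _ hmeas, integral_indicator_const _ hmeas, smul_eq_mul,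
    smul_eq_mul, mul_one, mul_one] at heq
  exact (measureReal_eq_measureReal_iff (measure_ne_top _ _) (measure_ne_top _ _)).1 heq

/-- The finite-volume measure in `Λ` with plus boundary condition. -/
noncomputable def finVol (β : ℝ) (J : Edge d → ℝ) (Λ : Finset (Site d)) : Measure (Config d) :=
  ∑ σ ∈ confs Λ fun _ => true,
    ENNReal.ofReal (wt β J Λ σ / part (wt β J Λ) Λ fun _ => true) • Measure.dirac σ

lemma finVol_prob (β : ℝ) (J : Edge d → ℝ) (Λ : Finset (Site d)) :
    IsProbabilityMeasure (finVol β J Λ) := by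
  have hZ := part_pos (wt_pos β J Λ) Λ fun _ => true
  constructor
  simp only [finVol, Measure.coe_finsetSum, Finset.sum_apply, Measure.smul_apply,
    measure_univ, smul_eq_mul, mul_one]
  rw [← ENNReal.ofReal_sum_of_nonneg fun σ _ => (div_pos (wt_pos β J Λ σ) hZ).le,
    ← Finset.sum_div]
  change ENNReal.ofReal (part _ _ _ / _) = 1
  rw [div_self hZ.ne', ENNReal.ofReal_one]

lemma integral_finVol (β : ℝ) (J : Edge d → ℝ) (Λ : Finset (Site d)) {S : Finset (Site d)}
    {F : Config d → ℝ} (hF : Dep S F) :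
    ∫ σ, F σ ∂(finVol β J Λ) = gam (wt β J Λ) Λ F fun _ => true := by
  have hZ := part_pos (wt_pos β J Λ) Λ fun _ => true
  unfold finVol gam
  rw [integral_finsetSum_measure fun σ _ =>
    (hF.integrable _).smul_measure ENNReal.ofReal_ne_top, Finset.sum_div]
  refine Finset.sum_congr rfl fun σ _ => ?_
  rw [integral_smul_measure, integral_dirac,
    ENNReal.toReal_ofReal (div_pos (wt_pos β J Λ σ) hZ).le, smul_eq_mul]
  ring

theorem gibbs_exists (β : ℝ) (J : Edge d → ℝ) : ∃ π : Measure (Config d), IsGibbs β J π := by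
  let μs : ℕ → ProbabilityMeasure (Config d) :=
    fun n => ⟨finVol β J (box d n), finVol_prob β J _⟩
  obtain ⟨π, -, hπ⟩ := isCompact_univ.ultrafilter_le_nhds
    ((hyperfilter ℕ).map μs) (by simp)
  have hlim : Tendsto μs (hyperfilter ℕ) (𝓝 π) := hπ
  have hconv : ∀ {S : Finset (Site d)} {F : Config d → ℝ}, Dep S F →
      Tendsto (fun n => gam (wt β J (box d n)) (box d n) F fun _ => true) (hyperfilter ℕ)
        (𝓝 (∫ σ, F σ ∂(π : Measure (Config d)))) := by
    intro S F hF
    have := ProbabilityMeasure.tendsto_iff_forall_integral_tendsto.1 hlim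
      (BoundedContinuousFunction.mkOfCompact ⟨F, hF.continuous⟩)
    refine this.congr fun n => ?_
    exact integral_finVol β J _ hF
  suffices H : ∀ (Λ : Finset (Site d)) (η : Λ → Bool),
      condExp (cylinderEvents ((Λ : Set (Site d))ᶜ)) (π : Measure (Config d)) (ind Λ η)
        =ᵐ[(π : Measure (Config d))] fun τ => boxProb β J Λ τ η from
    ⟨π, inferInstance, fun a b η => H _ η⟩
  intro Λ η
  have hG := dep_gam β J Λ (dep_ind Λ η)
  have hI := dep_ind Λ η
  have hGi := hG.integrable (π : Measure (Config d))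
  have hIi := hI.integrable (π : Measure (Config d))
  have hbasic : ∀ (T : Finset (Site d)) (ζ : Config d), (T : Set (Site d)) ⊆ (Λ : Set (Site d))ᶜ →
      ∫ σ in cyl T ζ, gam (wt β J Λ) Λ (ind Λ η) σ ∂(π : Measure (Config d))
        = ∫ σ in cyl T ζ, ind Λ η σ ∂(π : Measure (Config d)) := by
    intro T ζ hT
    have hmeas : MeasurableSet (cyl T ζ) := cylinderEvents_le_pi _ (measurableSet_cyl hT ζ)
    set g : Config d → ℝ := (cyl T ζ).indicator fun _ => (1 : ℝ) with hg
    have e : ∀ F : Config d → ℝ, ∫ σ in cyl T ζ, F σ ∂(π : Measure (Config d))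
        = ∫ σ, g σ * F σ ∂(π : Measure (Config d)) := by
      intro F
      rw [← integral_indicator hmeas]
      congr 1
      funext σ
      by_cases h : σ ∈ cyl T ζ <;> simp [hg, h]
    rw [e, e]
    refine tendsto_nhds_unique (hconv ((dep_cyl T ζ).mul hG))
      ((hconv ((dep_cyl T ζ).mul hI)).congr' ?_)
    obtain ⟨m, hm⟩ := exists_box Λ
    have hev : ∀ᶠ n in (hyperfilter ℕ : Filter ℕ), m ≤ n :=
      (Nat.hyperfilter_le_atTop) (eventually_ge_atTop m)
    filter_upwards [hev] with n hn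
    have hsub : Λ ⊆ box d n := hm.trans (box_mono hn)
    rw [← gam_gam (wt_pos β J _) hsub]
    refine gam_congr fun σ _ => ?_
    rw [← gam_wt β J hsub, ← gam_mul_left]
    refine gam_congr fun ρ hρ => ?_
    rw [dep_cyl T ζ ρ σ fun x hx => mem_confs.1 hρ x (hT hx)]
  have hall : ∀ t, MeasurableSet[cylinderEvents ((Λ : Set (Site d))ᶜ)] t →
      ∫ σ in t, gam (wt β J Λ) Λ (ind Λ η) σ ∂(π : Measure (Config d))
        = ∫ σ in t, ind Λ η σ ∂(π : Measure (Config d)) := by
    intro t ht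
    refine MeasurableSpace.induction_on_inter (m := cylinderEvents ((Λ : Set (Site d))ᶜ))
      (C := fun t _ => ∫ σ in t, gam (wt β J Λ) Λ (ind Λ η) σ ∂(π : Measure (Config d))
        = ∫ σ in t, ind Λ η σ ∂(π : Measure (Config d)))
      (cylinderEvents_eq _) (isPiSystem_cyls _) (by simp) ?_ ?_ ?_ t ht
    · rintro _ ⟨T, ζ, hT, rfl⟩
      exact hbasic T ζ hT
    · intro u hu h1
      have hu' : MeasurableSet u := cylinderEvents_le_pi _ hu
      have h0 := hbasic ∅ (fun _ => true) (by simp)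
      have : cyl (∅ : Finset (Site d)) (fun _ => true) = Set.univ := by ext; simp [cyl]
      rw [this, Measure.restrict_univ] at h0
      rw [setIntegral_compl hu' hGi, setIntegral_compl hu' hIi, h0, h1]
    · intro u hdis hu h1
      have hu' : ∀ i, MeasurableSet (u i) := fun i => cylinderEvents_le_pi _ (hu i)
      rw [integral_iUnion hu' hdis hGi.integrableOn, integral_iUnion hu' hdis hIi.integrableOn]
      exact tsum_congr h1
  simp only [boxProb_eq]
  refine (ae_eq_condExp_of_forall_setIntegral_eq cylinderEvents_le_pi hIi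
    (fun t _ _ => hGi.integrableOn) (fun t ht _ => hall t ht) ?_).symm
  refine (hG.measurable_cyl ?_).stronglyMeasurable.aestronglyMeasurable
  intro x hx
  exact (Finset.mem_sdiff.1 hx).2

end Pool.Agent.P.MP_81d17b_pr
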