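import Pool.Agent.P.MP_81d17b_pr.Local

/-! The influence of distant spins on the spin at a good site, uniformly in the region and in
the boundary condition. -/

namespace Pool.Agent.P.MP_81d17b_pr

open Finset Function

variable {d : ℕ}

lemma card_ball_R (x : Site d) : ((ball x (64 * d)).card : ℝ) ≤ (21 ^ d) ^ 2 := by
  have h := card_ball_le (l := 127 / 128) (by norm_num) (by norm_num) x (64 * d)
  have h1 : (0 : ℝ) < (127 / 128) ^ (64 * d) := by positivity
  rw [← le_div_iff₀ h1] at h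
  refine h.trans ?_
  rw [pow_mul, ← div_pow, ← pow_mul, mul_comm d 2, pow_mul]
  exact pow_le_pow_left₀ (by positivity) (by norm_num) d

lemma card_ball_r (hd : 2 ≤ d) (x : Site d) :
    ((ball x (2 * (64 * d) + 1)).card : ℝ) ≤ 720 ^ d := by
  have h := card_ball_le (l := 127 / 128) (by norm_num) (by norm_num) x (129 * d)
  have h1 : (0 : ℝ) < (127 / 128) ^ (129 * d) := by positivity
  rw [← le_div_iff₀ h1] at h
  have h2 : ball x (2 * (64 * d) + 1) ⊆ ball x (129 * d) := by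
    intro y hy
    rw [mem_ball] at hy ⊢
    omega
  have h3 : ((ball x (2 * (64 * d) + 1)).card : ℝ) ≤ (ball x (129 * d)).card := by
    exact_mod_cast Finset.card_le_card h2
  refine h3.trans (h.trans ?_)
  rw [pow_mul, ← div_pow]
  exact pow_le_pow_left₀ (by positivity) (by norm_num) d

lemma const_bound (hd : 2 ≤ d) {τ : ℝ} (h0 : 0 ≤ τ) (h1 : τ ≤ 1 / (10 * Real.sqrt d)) :
    τ / 2 * (13 * Real.sqrt d) * (6 / 5) + 6 / 5 * (τ ^ 2 / (2 * (1 - τ))) * (2 * d)
      + τ ^ 2 / (2 * (1 - τ) ^ 2) * (2 * d) ≤ 5 / 6 := by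
  have hd' : (1 : ℝ) ≤ d := by exact_mod_cast (by omega : 1 ≤ d)
  have hs : 1 ≤ Real.sqrt d := Real.one_le_sqrt.2 hd'
  have hs2 : Real.sqrt d ^ 2 = d := Real.sq_sqrt (by linarith)
  have h2 : τ * Real.sqrt d ≤ 1 / 10 := by
    rw [le_div_iff₀ (by positivity)] at h1
    linarith
  have h3 : τ ≤ 1 / 10 := by nlinarith
  have h4 : τ ^ 2 * d ≤ 1 / 100 := by
    rw [← hs2, ← mul_pow]
    nlinarith [mul_nonneg h0 (by linarith : 0 ≤ Real.sqrt d)]
  have h5 : 9 / 10 ≤ 1 - τ := by linarith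
  have e1 : τ ^ 2 / (2 * (1 - τ)) * (2 * d) ≤ 1 / 90 := by
    rw [div_mul_eq_mul_div, div_le_iff₀ (by positivity)]
    nlinarith
  have e2 : τ ^ 2 / (2 * (1 - τ) ^ 2) * (2 * d) ≤ 1 / 81 := by
    rw [div_mul_eq_mul_div, div_le_iff₀ (by positivity)]
    nlinarith
  nlinarith

/-- The bound on the influence at a good site. -/
noncomputable def dlt (d : ℕ) : ℝ := 6 * 21 ^ d / (6 / 5) ^ (64 * d)

/-- The threshold for the trace. -/
noncomputable def thr (d : ℕ) : ℝ := (13 * Real.sqrt d) ^ (2 * (16 * d))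

lemma influence_ball (hd : 2 ≤ d) {β : ℝ} (hβ0 : 0 < β) (hβ : β ≤ 1 / (20 * Real.sqrt d))
    (s : Edge d → Bool) {Λ U : Finset (Site d)} (hU : U ⊆ Λ) {x₀ : Site d} (hx₀ : x₀ ∈ U)
    (hUB : U ⊆ ball x₀ (64 * d)) (hgood : trc (ball x₀ (64 * d)) (16 * d) s ≤ thr d)
    {τ τ' : Config d} (h : ∀ y, dist1 y x₀ ≤ 64 * d → y ∉ U → τ y = τ' y) :
    |gam (wt β (fun e => spin (s e)) Λ) U (up x₀) τ
      - gam (wt β (fun e => spin (s e)) Λ) U (up x₀) τ'| ≤ dlt d := by
  have hd' : (0 : ℝ) < d := by exact_mod_cast (by omega : 0 < d)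
  have hs : 0 < Real.sqrt d := Real.sqrt_pos.2 hd'
  set J : Edge d → ℝ := fun e => spin (s e) with hJ
  set t := Real.tanh (2 * β) with ht
  have ht0 : 0 ≤ t := tanh_nonneg' (by linarith)
  have ht1 : t < 1 := Real.tanh_lt_one _
  have ht2 : t ≤ 1 / (10 * Real.sqrt d) := by
    have h1 := tanh_le_self (by linarith : 0 ≤ 2 * β)
    have h2 : 2 * (1 / (20 * Real.sqrt d)) = 1 / (10 * Real.sqrt d) := by field_simp; ring
    linarith
  have H : Hyp (tm β J U τ') (fun x y : U => cpl s x y) (fun x : U => (6 / 5 : ℝ) ^ dist1 x.1 x₀)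
      (t / 2) (t ^ 2 / (2 * (1 - t))) (t ^ 2 / (2 * (1 - t) ^ 2)) (2 * d) (6 / 5)
      (13 * Real.sqrt d) :=
    { habs := fun x η => abs_tanh_le _
      hmain := fun x y η => (dop_tm_bounds hβ0.le s U τ' x y η).1
      hsq := fun x y η => (dop_tm_bounds hβ0.le s U τ' x y η).2
      hrow := fun x => by
        rw [Finset.sum_coe_sort U fun y => cpl s x y ^ 2]
        exact sum_cpl_sq_le s U x
      hcol := fun y => by
        simp only [cpl_symm s _ y]
        rw [Finset.sum_coe_sort U fun x => cpl s y x ^ 2]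
        exact sum_cpl_sq_le s U y
      hω := fun x => by positivity
      hg := fun x y hc => by
        obtain ⟨k, hk⟩ := exists_nbr_of_cpl_ne hc
        rw [← pow_succ']
        apply pow_le_pow_right₀ (by norm_num)
        rcases dist1_nbr x.1 x₀ k with e | e <;> rw [hk] at e <;> omega
      hbil := fun a b => bil_weighted hUB (by omega) (by positivity) hgood x₀ (by norm_num) a b
      hκ := by positivity
      hρ₀ := div_nonneg (sq_nonneg _) (by linarith)
      hρ₁ := by positivity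
      hg0 := by norm_num
      hK := by positivity }
  set S : Finset U := Finset.univ.filter fun x : U => dist1 x.1 x₀ = 64 * d with hS
  have hG : (0 : ℝ) < 21 ^ d := by positivity
  have hcmp := compare (t' := tm β J U τ) H (const_bound hd ht0 ht2) (by norm_num) ⟨x₀, hx₀⟩
    (by simp [dist1_self]) (stat_pm β J hU τ') (stat_pm β J hU τ) (fun x η => abs_tanh_le _) S
    (w := (6 / 5 : ℝ) ^ (64 * d)) (M := 21 ^ d / 6) ?_ (by positivity) (by positivity) ?_
  · have hcard : (S.card : ℝ) ≤ (21 ^ d) ^ 2 := by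
      refine le_trans ?_ (card_ball_R x₀)
      have h1 : S.card ≤ U.card := by
        simpa using Finset.card_le_univ S
      exact_mod_cast h1.trans (Finset.card_le_card hUB)
    rw [gam_up_eq β J hU τ ⟨x₀, hx₀⟩, gam_up_eq β J hU τ' ⟨x₀, hx₀⟩, ← sub_div,
      add_sub_add_left_eq_sub, abs_div, abs_two, div_le_iff₀ two_pos]
    refine hcmp.trans ?_
    unfold dlt
    rw [div_mul_eq_mul_div]
    apply div_le_div_of_nonneg_right _ (by positivity)
    have h2 : (S.card : ℝ) / (21 ^ d / 6) ≤ 6 * 21 ^ d := by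
      rw [div_le_iff₀ (by positivity)]; nlinarith
    have h3 : (21 : ℝ) ^ d / 6 / (1 - 5 / 6) ^ 2 = 6 * 21 ^ d := by ring
    linarith
  · intro x hx η
    have hx1 : dist1 x.1 x₀ ≤ 64 * d := mem_ball.1 (hUB x.2)
    have hx2 : dist1 x.1 x₀ ≠ 64 * d := by simpa [hS] using hx
    unfold tm fld
    congr 2
    refine Finset.sum_congr rfl fun k _ => ?_
    by_cases hk : nbr x.1 k ∈ U
    · rw [glue_of_mem _ _ hk, glue_of_mem _ _ hk]
    · rw [glue_of_notMem _ _ hk, glue_of_notMem _ _ hk, h _ _ hk]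
      rcases dist1_nbr x.1 x₀ k with e | e <;> omega
  · intro x hx
    rw [(Finset.mem_filter.1 hx).2]

lemma influence (hd : 2 ≤ d) {β : ℝ} (hβ0 : 0 < β) (hβ : β ≤ 1 / (20 * Real.sqrt d))
    (s : Edge d → Bool) {Λ U : Finset (Site d)} (hU : U ⊆ Λ) {x₀ : Site d} (hx₀ : x₀ ∈ U)
    (hgood : trc (ball x₀ (64 * d)) (16 * d) s ≤ thr d)
    {τ τ' : Config d} (h : ∀ y, dist1 y x₀ ≤ 64 * d → y ∉ U → τ y = τ' y) :
    |gam (wt β (fun e => spin (s e)) Λ) U (up x₀) τ
      - gam (wt β (fun e => spin (s e)) Λ) U (up x₀) τ'| ≤ dlt d := by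
  set U' := U.filter fun y => dist1 y x₀ ≤ 64 * d with hU'
  have hsub : U' ⊆ U := Finset.filter_subset _ _
  rw [← gam_gam (wt_pos β _ Λ) hsub (up x₀) τ, ← gam_gam (wt_pos β _ Λ) hsub (up x₀) τ']
  refine abs_gam_sub_le (wt_pos β _ Λ) fun σ hσ σ' hσ' => ?_
  refine influence_ball hd hβ0 hβ s (hsub.trans hU) ?_ ?_ hgood ?_
  · simp [hU', hx₀, dist1_self]
  · intro y hy
    exact mem_ball.2 (Finset.mem_filter.1 hy).2
  · intro y hy1 hy2
    have hy : y ∉ U := fun hy => hy2 (Finset.mem_filter.2 ⟨hy, hy1⟩)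
    rw [mem_confs.1 hσ y hy, mem_confs.1 hσ' y hy, h y hy1 hy]

end Pool.Agent.P.MP_81d17b_pr
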