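import Pool.Agent.P.MP_81d17b_pr.Defs

/-! Geometry of the hypercubic lattice: neighbours, edges, distance, balls. -/

namespace Pool.Agent.P.MP_81d17b_pr

open Finset

variable {d : ℕ}

/-- Directions. -/
abbrev Dir (d : ℕ) : Type := Fin d × Bool

/-- The neighbour of `x` in direction `k`. -/
def nbr (x : Site d) (k : Dir d) : Site d :=
  if k.2 then x + Pi.single k.1 1 else x - Pi.single k.1 1

/-- The edge from `x` in direction `k`. -/
def edg (x : Site d) (k : Dir d) : Edge d :=
  if k.2 then (x, k.1) else (x - Pi.single k.1 1, k.1)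

/-- The opposite direction. -/
def rev (k : Dir d) : Dir d := (k.1, !k.2)

lemma rev_rev (k : Dir d) : rev (rev k) = k := by simp [rev]

lemma nbr_nbr_rev (x : Site d) (k : Dir d) : nbr (nbr x k) (rev k) = x := by
  obtain ⟨i, b⟩ := k
  cases b <;> simp [nbr, rev]

lemma edg_nbr_rev (x : Site d) (k : Dir d) : edg (nbr x k) (rev k) = edg x k := by
  obtain ⟨i, b⟩ := k
  cases b <;> simp [nbr, rev, edg]

lemma nbr_apply (x : Site d) (k : Dir d) (j : Fin d) :
    nbr x k j = x j + if j = k.1 then (if k.2 then 1 else -1) else 0 := by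
  obtain ⟨i, b⟩ := k
  cases b <;> by_cases h : j = i <;> simp [nbr, h, sub_eq_add_neg]

lemma nbr_injective (x : Site d) : Function.Injective (nbr x) := by
  rintro ⟨i, b⟩ ⟨j, c⟩ h
  have h1 := congrFun h i
  rw [nbr_apply, nbr_apply] at h1
  by_cases hij : i = j
  · subst hij
    cases b <;> cases c <;> simp_all
  · cases b <;> simp [hij] at h1

lemma nbr_ne (x : Site d) (k : Dir d) : nbr x k ≠ x := by
  intro h
  have h1 := congrFun h k.1
  rw [nbr_apply] at h1
  cases hb : k.2 <;> simp [hb] at h1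

lemma edg_eq {w v : Site d} {k' k : Dir d} (h : edg w k' = edg v k) :
    (w = v ∧ k' = k) ∨ (w = nbr v k ∧ k' = rev k) := by
  obtain ⟨i, b⟩ := k
  obtain ⟨j, c⟩ := k'
  cases b <;> cases c <;> simp only [edg, nbr, rev, Prod.mk.injEq, if_true,
    Bool.false_eq_true, if_false, Bool.not_false, Bool.not_true] at h ⊢
  · obtain ⟨h1, rfl⟩ := h
    left; exact ⟨sub_left_injective h1, rfl, trivial⟩
  · obtain ⟨h1, rfl⟩ := h
    right; exact ⟨h1, rfl, trivial⟩
  · obtain ⟨h1, rfl⟩ := h
    right; exact ⟨by rw [← h1]; simp, rfl, trivial⟩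
  · obtain ⟨h1, rfl⟩ := h
    left; exact ⟨h1, rfl, trivial⟩

lemma edg_injective (x : Site d) : Function.Injective (edg x) := by
  intro k k' h
  rcases edg_eq h with h1 | h1
  · exact h1.2
  · exact absurd h1.1.symm (nbr_ne x k')

lemma edg_fst (e : Edge d) : edg e.1 (e.2, true) = e := by simp [edg]

lemma edg_tip (e : Edge d) : edg (tip e) (e.2, false) = e := by simp [edg, tip]

lemma edg_ends (x : Site d) (k : Dir d) :
    ((edg x k).1 = x ∧ tip (edg x k) = nbr x k) ∨ ((edg x k).1 = nbr x k ∧ tip (edg x k) = x) := by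
  obtain ⟨i, b⟩ := k
  cases b <;> simp [edg, tip, nbr]

lemma tip_eq_nbr (e : Edge d) : tip e = nbr e.1 (e.2, true) := by simp [tip, nbr]

lemma fst_eq_nbr (e : Edge d) : e.1 = nbr (tip e) (e.2, false) := by simp [tip, nbr]

lemma sum_nbr (x : Site d) (k : Dir d) :
    ∑ j, nbr x k j = ∑ j, x j + if k.2 then 1 else -1 := by
  simp only [nbr_apply, Finset.sum_add_distrib, Finset.sum_ite_eq', Finset.mem_univ, if_true]

lemma nbr_nbr_ne (v : Site d) (k₁ k₂ k₃ : Dir d) : nbr (nbr v k₁) k₂ ≠ nbr v k₃ := by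
  intro h
  have h1 : ∑ j, nbr (nbr v k₁) k₂ j = ∑ j, nbr v k₃ j := by rw [h]
  rw [sum_nbr, sum_nbr, sum_nbr] at h1
  cases hk₁ : k₁.2 <;> cases hk₂ : k₂.2 <;> cases hk₃ : k₃.2 <;>
    simp only [hk₁, hk₂, hk₃, if_true, Bool.false_eq_true, if_false] at h1 <;> omega

lemma card_dir : Fintype.card (Dir d) = 2 * d := by simp [Dir, mul_comm]

/-- The graph distance. -/
def dist1 (x y : Site d) : ℕ := ∑ i, (x i - y i).natAbs

lemma dist1_comm (x y : Site d) : dist1 x y = dist1 y x :=
  Finset.sum_congr rfl fun i _ => by omega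

lemma dist1_self (x : Site d) : dist1 x x = 0 := by simp [dist1]

lemma dist1_triangle (x y z : Site d) : dist1 x z ≤ dist1 x y + dist1 y z := by
  unfold dist1
  rw [← Finset.sum_add_distrib]
  exact Finset.sum_le_sum fun i _ => by omega

lemma dist1_nbr (x z : Site d) (k : Dir d) :
    dist1 (nbr x k) z = dist1 x z + 1 ∨ dist1 x z = dist1 (nbr x k) z + 1 := by
  unfold dist1
  rw [← Finset.add_sum_erase _ _ (Finset.mem_univ k.1),
    ← Finset.add_sum_erase _ (fun i => (x i - z i).natAbs) (Finset.mem_univ k.1)]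
  have h : ∑ i ∈ univ.erase k.1, (nbr x k i - z i).natAbs
      = ∑ i ∈ univ.erase k.1, (x i - z i).natAbs := by
    refine Finset.sum_congr rfl fun i hi => ?_
    rw [nbr_apply, if_neg (Finset.mem_erase.1 hi).1, add_zero]
  rw [h, nbr_apply, if_pos rfl]
  cases k.2 <;> simp only [if_true, Bool.false_eq_true, if_false] <;> omega

lemma coord_le_dist1 (x y : Site d) (i : Fin d) : (x i - y i).natAbs ≤ dist1 x y :=
  Finset.single_le_sum (f := fun i => (x i - y i).natAbs) (fun _ _ => Nat.zero_le _)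
    (Finset.mem_univ i)

/-- The ball of radius `R` around `x`. -/
noncomputable def ball (x : Site d) (R : ℕ) : Finset (Site d) :=
  (Fintype.piFinset fun i => Finset.Icc (x i - R) (x i + R)).filter fun y => dist1 y x ≤ R

lemma mem_ball {x y : Site d} {R : ℕ} : y ∈ ball x R ↔ dist1 y x ≤ R := by
  unfold ball
  rw [Finset.mem_filter, Fintype.mem_piFinset]
  refine ⟨fun h => h.2, fun h => ⟨fun i => ?_, h⟩⟩
  have := coord_le_dist1 y x i
  rw [Finset.mem_Icc]; omega

lemma sum_geom_Icc {l : ℝ} (h1 : l < 1) (c : ℤ) (R : ℕ) :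
    ∑ t ∈ Finset.Icc (c - R) (c + R), l ^ (t - c).natAbs = (1 + l - 2 * l ^ (R + 1)) / (1 - l) := by
  have hl : 1 - l ≠ 0 := by linarith
  induction R with
  | zero => simp; field_simp; ring
  | succ R ih =>
    have e : Finset.Icc (c - (R + 1 : ℕ)) (c + (R + 1 : ℕ))
        = insert (c - (R + 1 : ℕ)) (insert (c + (R + 1 : ℕ)) (Finset.Icc (c - R) (c + R))) := by
      ext t; simp only [Finset.mem_Icc, Finset.mem_insert]; omega
    rw [e, Finset.sum_insert (by simp only [Finset.mem_Icc, Finset.mem_insert]; omega),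
      Finset.sum_insert (by simp only [Finset.mem_Icc]; omega), ih]
    have a1 : (c - (R + 1 : ℕ) - c).natAbs = R + 1 := by omega
    have a2 : (c + (R + 1 : ℕ) - c).natAbs = R + 1 := by omega
    rw [a1, a2]
    field_simp
    ring

lemma card_ball_le {l : ℝ} (h0 : 0 < l) (h1 : l < 1) (x : Site d) (R : ℕ) :
    ((ball x R).card : ℝ) * l ^ R ≤ ((1 + l) / (1 - l)) ^ d := by
  have hl : 0 < 1 - l := by linarith
  calc ((ball x R).card : ℝ) * l ^ R = ∑ y ∈ ball x R, l ^ R := by simp
    _ ≤ ∑ y ∈ ball x R, ∏ i, l ^ (y i - x i).natAbs := by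
        refine Finset.sum_le_sum fun y hy => ?_
        rw [Finset.prod_pow_eq_pow_sum]
        exact pow_le_pow_of_le_one h0.le h1.le (mem_ball.1 hy)
    _ ≤ ∑ y ∈ Fintype.piFinset fun i => Finset.Icc (x i - R) (x i + R),
          ∏ i, l ^ (y i - x i).natAbs :=
        Finset.sum_le_sum_of_subset_of_nonneg (Finset.filter_subset _ _)
          fun _ _ _ => by positivity
    _ = ∏ i, ∑ t ∈ Finset.Icc (x i - R) (x i + R), l ^ (t - x i).natAbs :=
        (Finset.prod_univ_sum (fun i => Finset.Icc (x i - R) (x i + R))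
          (fun i t => l ^ (t - x i).natAbs)).symm
    _ ≤ ∏ _i : Fin d, (1 + l) / (1 - l) := by
        refine Finset.prod_le_prod (fun i _ => Finset.sum_nonneg fun _ _ => by positivity)
          fun i _ => ?_
        rw [sum_geom_Icc h1]
        apply div_le_div_of_nonneg_right _ hl.le
        have : 0 ≤ l ^ (R + 1) := by positivity
        linarith
    _ = _ := by simp [div_pow]

end Pool.Agent.P.MP_81d17b_pr
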