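import Pool.Agent.P.MP_81d17b_pr.Norm

/-! Locality of the finite-volume measures and their single-site conditional means. -/

namespace Pool.Agent.P.MP_81d17b_pr

open Finset Function

variable {d : ℕ}

/-- Edges with an endpoint in `Λ`. -/
def edgesMeet (Λ : Finset (Site d)) : Finset (Edge d) :=
  Λ.biUnion fun x => Finset.univ.image (edg x)

lemma mem_edgesMeet {Λ : Finset (Site d)} {e : Edge d} :
    e ∈ edgesMeet Λ ↔ e.1 ∈ Λ ∨ tip e ∈ Λ := by
  simp only [edgesMeet, Finset.mem_biUnion, Finset.mem_image, Finset.mem_univ, true_and]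
  constructor
  · rintro ⟨x, hx, k, rfl⟩
    rcases edg_ends x k with ⟨h1, -⟩ | ⟨-, h2⟩
    · left; rwa [h1]
    · right; rwa [h2]
  · rintro (h | h)
    · exact ⟨_, h, _, edg_fst e⟩
    · exact ⟨_, h, _, edg_tip e⟩

lemma energy_eq (J : Edge d → ℝ) (Λ : Finset (Site d)) (σ : Config d) :
    energy J Λ σ = ∑ e ∈ edgesMeet Λ, J e * spin (σ e.1) * spin (σ (tip e)) := by
  unfold energy
  rw [← finsum_mem_coe_finset]
  congr 1
  ext e
  simp only [Set.mem_ofPred_eq, Finset.mem_coe, mem_edgesMeet]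

/-- The Boltzmann weight. -/
noncomputable def wt (β : ℝ) (J : Edge d → ℝ) (Λ : Finset (Site d)) (σ : Config d) : ℝ :=
  Real.exp (β * energy J Λ σ)

lemma wt_pos (β : ℝ) (J : Edge d → ℝ) (Λ : Finset (Site d)) (σ : Config d) : 0 < wt β J Λ σ :=
  Real.exp_pos _

/-- The part of the weight that does not see the spins in `U`. -/
noncomputable def rest (β : ℝ) (J : Edge d → ℝ) (Λ U : Finset (Site d)) (σ : Config d) : ℝ :=
  Real.exp (β * ∑ e ∈ edgesMeet Λ \ edgesMeet U, J e * spin (σ e.1) * spin (σ (tip e)))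

lemma wt_eq_rest (β : ℝ) (J : Edge d → ℝ) {Λ U : Finset (Site d)} (hU : U ⊆ Λ) (σ : Config d) :
    wt β J Λ σ = rest β J Λ U σ * wt β J U σ := by
  have hsub : edgesMeet U ⊆ edgesMeet Λ := by
    intro e he
    rw [mem_edgesMeet] at he ⊢
    exact he.imp (fun h => hU h) fun h => hU h
  unfold wt rest
  rw [← Real.exp_add, energy_eq, energy_eq, ← mul_add, Finset.sum_sdiff hsub]

lemma rest_congr (β : ℝ) (J : Edge d → ℝ) (Λ : Finset (Site d)) {U : Finset (Site d)}
    {σ τ : Config d} (h : ∀ x, x ∉ U → σ x = τ x) : rest β J Λ U σ = rest β J Λ U τ := by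
  unfold rest
  congr 2
  refine Finset.sum_congr rfl fun e he => ?_
  have := (Finset.mem_sdiff.1 he).2
  rw [mem_edgesMeet, not_or] at this
  rw [h _ this.1, h _ this.2]

lemma gam_wt (β : ℝ) (J : Edge d → ℝ) {Λ U : Finset (Site d)} (hU : U ⊆ Λ) (f : Config d → ℝ)
    (τ : Config d) : gam (wt β J Λ) U f τ = gam (wt β J U) U f τ := by
  apply gam_weight (C := rest β J Λ U) (Real.exp_pos _).ne'
  intro σ hσ
  rw [wt_eq_rest β J hU, rest_congr β J Λ (mem_confs.1 hσ)]

lemma wt_congr (β : ℝ) (J : Edge d → ℝ) {U : Finset (Site d)} {σ σ' : Config d}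
    (h1 : ∀ x ∈ U, σ x = σ' x) (h2 : ∀ x ∈ U, ∀ k, σ (nbr x k) = σ' (nbr x k)) :
    wt β J U σ = wt β J U σ' := by
  unfold wt
  rw [energy_eq, energy_eq]
  congr 2
  refine Finset.sum_congr rfl fun e he => ?_
  rcases mem_edgesMeet.1 he with h | h
  · rw [h1 _ h, tip_eq_nbr, h2 _ h]
  · rw [h1 _ h, fst_eq_nbr, h2 _ h]

/-- The Markov property. -/
lemma gam_loc (β : ℝ) (J : Edge d → ℝ) {Λ U Δ : Finset (Site d)} (hU : U ⊆ Λ) {f : Config d → ℝ}
    (hf : Dep Δ f) {τ τ' : Config d}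
    (h1 : ∀ x ∈ U, ∀ k, nbr x k ∉ U → τ (nbr x k) = τ' (nbr x k))
    (h2 : ∀ w ∈ Δ, w ∉ U → τ w = τ' w) :
    gam (wt β J Λ) U f τ = gam (wt β J Λ) U f τ' := by
  rw [gam_wt β J hU, gam_wt β J hU]
  refine gam_local (fun η => wt_congr β J (fun x hx => ?_) fun x hx k => ?_)
    fun η => hf _ _ fun w hw => ?_
  · rw [glue_of_mem _ _ hx, glue_of_mem _ _ hx]
  · by_cases h : nbr x k ∈ U
    · rw [glue_of_mem _ _ h, glue_of_mem _ _ h]
    · rw [glue_of_notMem _ _ h, glue_of_notMem _ _ h, h1 x hx k h]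
  · by_cases h : w ∈ U
    · rw [glue_of_mem _ _ h, glue_of_mem _ _ h]
    · rw [glue_of_notMem _ _ h, glue_of_notMem _ _ h, h2 w hw h]

/-- The local field. -/
noncomputable def fld (β : ℝ) (J : Edge d → ℝ) (σ : Config d) (x : Site d) : ℝ :=
  β * ∑ k : Dir d, J (edg x k) * spin (σ (nbr x k))

lemma wt_singleton (β : ℝ) (J : Edge d → ℝ) (σ : Config d) (x : Site d) :
    wt β J {x} σ = Real.exp (spin (σ x) * fld β J σ x) := by
  unfold wt fld
  rw [energy_eq]
  congr 1
  simp only [edgesMeet, Finset.singleton_biUnion]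
  rw [Finset.sum_image fun k _ k' _ h => edg_injective x h, Finset.mul_sum, Finset.mul_sum,
    Finset.mul_sum]
  refine Finset.sum_congr rfl fun k _ => ?_
  rcases edg_ends x k with ⟨h1, h2⟩ | ⟨h1, h2⟩ <;> rw [h1, h2] <;> ring

lemma fld_update_self (β : ℝ) (J : Edge d → ℝ) (σ : Config d) (x : Site d) (b : Bool) :
    fld β J (update σ x b) x = fld β J σ x := by
  unfold fld
  congr 1
  exact Finset.sum_congr rfl fun k _ => by rw [update_of_ne (nbr_ne x k)]

lemma fld_update (β : ℝ) (s : Edge d → Bool) (σ : Config d) (x y : Site d) (b : Bool) :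
    fld β (fun e => spin (s e)) (update σ y b) x
      = fld β (fun e => spin (s e)) σ x + β * cpl s x y * (spin b - spin (σ y)) := by
  unfold fld cpl
  rw [mul_assoc, ← mul_add, Finset.sum_mul, ← Finset.sum_add_distrib]
  congr 1
  refine Finset.sum_congr rfl fun k _ => ?_
  by_cases h : nbr x k = y
  · subst h; simp only [update_self, if_true]; ring
  · simp [h]

lemma glue_update {ι : Type} [DecidableEq ι] {U : Finset ι} (η : U → Bool) (τ : ι → Bool) (x : U)
    (b : Bool) : glue U (update η x b) τ = update (glue U η τ) x b := by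
  funext y
  by_cases hy : y = x
  · subst hy; simp [glue]
  · rw [update_of_ne hy]
    by_cases h : y ∈ U
    · rw [glue_of_mem _ _ h, glue_of_mem _ _ h, update_of_ne fun h' => hy (congrArg Subtype.val h')]
    · rw [glue_of_notMem _ _ h, glue_of_notMem _ _ h]

/-- The conditional means in `U` with boundary condition `τ`. -/
noncomputable def tm (β : ℝ) (J : Edge d → ℝ) (U : Finset (Site d)) (τ : Config d) (x : U)
    (η : U → Bool) : ℝ := Real.tanh (fld β J (glue U η τ) x)

/-- The probability vector in `U` with boundary condition `τ`. -/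
noncomputable def pm (β : ℝ) (J : Edge d → ℝ) (Λ U : Finset (Site d)) (τ : Config d)
    (η : U → Bool) : ℝ := wt β J Λ (glue U η τ) / ∑ ζ : U → Bool, wt β J Λ (glue U ζ τ)

lemma stat_pm (β : ℝ) (J : Edge d → ℝ) {Λ U : Finset (Site d)} (hU : U ⊆ Λ) (τ : Config d) :
    Stat (tm β J U τ) (pm β J Λ U τ) := by
  have hZ : 0 < ∑ ζ : U → Bool, wt β J Λ (glue U ζ τ) :=
    Finset.sum_pos (fun _ _ => wt_pos _ _ _ _) Finset.univ_nonempty
  refine ⟨fun η => (div_pos (wt_pos _ _ _ _) hZ).le, ?_, ?_⟩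
  · unfold pm; rw [← Finset.sum_div, div_self hZ.ne']
  · intro x G hG
    set F : (U → Bool) → ℝ := fun η => pm β J Λ U τ η * ((tm β J U τ x η - spin (η x)) * G η)
      with hF
    have hinv : Function.Involutive fun η : U → Bool => update η x (!η x) := by
      intro η; simp
    have h1 : ∑ η, F (update η x (!η x)) = ∑ η, F η := Equiv.sum_comp hinv.toPerm F
    have h2 : ∀ η, F (update η x (!η x)) + F η = 0 := by
      intro η
      have hx : ({x.1} : Finset (Site d)) ⊆ Λ := Finset.singleton_subset_iff.2 (hU x.2)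
      have hη : glue U η τ x = η x := glue_of_mem _ _ x.2
      have hr : rest β J Λ {x.1} (update (glue U η τ) x (!η x)) = rest β J Λ {x.1} (glue U η τ) :=
        rest_congr β J Λ fun y hy => update_of_ne (by simpa using hy) _ _
      simp only [hF, pm, tm, hG, glue_update, fld_update_self, update_self]
      rw [wt_eq_rest β J hx (update _ _ _), wt_eq_rest β J hx (glue U η τ), hr, wt_singleton,
        wt_singleton, fld_update_self, update_self, hη, Real.tanh_eq]
      set b := fld β J (glue U η τ) x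
      have hb : 0 < Real.exp b + Real.exp (-b) := by positivity
      cases η x <;> simp only [Bool.not_true, Bool.not_false, spin_true, spin_false, one_mul,
        neg_mul] <;> field_simp <;> ring
    have h3 : ∑ η, (F (update η x (!η x)) + F η) = 0 := Finset.sum_eq_zero fun η _ => h2 η
    rw [Finset.sum_add_distrib, h1] at h3
    linarith

lemma gam_up_eq (β : ℝ) (J : Edge d → ℝ) {Λ U : Finset (Site d)} (hU : U ⊆ Λ) (τ : Config d)
    (x : U) : gam (wt β J Λ) U (up x.1) τ = (1 + ∑ η, pm β J Λ U τ η * spin (η x)) / 2 := by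
  rw [gam_eq_glue, Finset.sum_div]
  conv_rhs => rw [← (stat_pm β J hU τ).total, ← Finset.sum_add_distrib, Finset.sum_div]
  refine Finset.sum_congr rfl fun η _ => ?_
  have hη : glue U η τ x = η x := glue_of_mem _ _ x.2
  simp only [pm, up, hη]
  cases η x <;> simp [spin]

lemma tanh_le_self {x : ℝ} (hx : 0 ≤ x) : Real.tanh x ≤ x := by
  have hd : ∀ y, HasDerivAt (fun y => y * Real.cosh y - Real.sinh y) (y * Real.sinh y) y := by
    intro y
    have := ((hasDerivAt_id' y).mul (Real.hasDerivAt_cosh y)).sub (Real.hasDerivAt_sinh y)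
    exact this.congr_deriv (by ring)
  have hm : MonotoneOn (fun y => y * Real.cosh y - Real.sinh y) (Set.Ici 0) := by
    apply monotoneOn_of_deriv_nonneg (convex_Ici 0)
    · exact fun y _ => (hd y).continuousAt.continuousWithinAt
    · exact fun y _ => (hd y).differentiableAt.differentiableWithinAt
    · intro y hy
      rw [(hd y).deriv]
      have : 0 ≤ y := by rw [interior_Ici] at hy; exact le_of_lt hy
      exact mul_nonneg this (Real.sinh_nonneg_iff.2 this)
  have := hm (Set.mem_Ici.2 le_rfl) (Set.mem_Ici.2 hx) hx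
  simp only [zero_mul, Real.sinh_zero, sub_zero] at this
  rw [Real.tanh_eq_sinh_div_cosh, div_le_iff₀ (Real.cosh_pos x)]
  linarith

lemma tanh_nonneg' {x : ℝ} (hx : 0 ≤ x) : 0 ≤ Real.tanh x := by
  rw [Real.tanh_eq_sinh_div_cosh]
  exact div_nonneg (Real.sinh_nonneg_iff.2 hx) (Real.cosh_pos x).le

lemma abs_tanh_le (x : ℝ) : |Real.tanh x| ≤ 1 := by
  have := Real.tanh_sq_lt_one x
  rw [abs_le]; constructor <;> nlinarith

lemma tanh_add_mul (x z : ℝ) : (Real.tanh (x + z) - Real.tanh x) * (1 + Real.tanh x * Real.tanh z)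
    = Real.tanh z * (1 - Real.tanh x ^ 2) := by
  have h1 := Real.cosh_pos x
  have h2 := Real.cosh_pos z
  have h3 := Real.cosh_pos (x + z)
  simp only [Real.tanh_eq_sinh_div_cosh]
  have e1 := Real.sinh_add x z
  have e2 := Real.cosh_add x z
  generalize Real.cosh (x + z) = c at *
  generalize Real.sinh (x + z) = c' at *
  field_simp
  rw [e1]
  linear_combination (- Real.sinh x * (Real.cosh x * Real.cosh z + Real.sinh x * Real.sinh z)
    - Real.sinh z * (Real.cosh x ^ 2 - Real.sinh x ^ 2)) * e2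

lemma tanh_bounds {τ a t e w σ : ℝ} (hτ0 : 0 ≤ τ) (hτ1 : τ < 1) (ht : |t| ≤ 1) (hw : |w| ≤ τ)
    (hσ : σ = 1 ∨ σ = -1) (he : e = 1 ∨ e = -1)
    (ha : 2 * a * (1 + t * w) = e * τ * (1 - t ^ 2)) :
    |a - τ / 2 * e * (1 - t ^ 2)| ≤ τ ^ 2 / (2 * (1 - τ)) * e ^ 2 ∧
      a ^ 2 ≤ τ ^ 2 / (2 * (1 - τ) ^ 2) * e ^ 2 * (1 - σ * t) := by
  have he2 : e ^ 2 = 1 := by rcases he with h | h <;> rw [h] <;> norm_num
  have hea : |e| = 1 := by rcases he with h | h <;> rw [h] <;> norm_num
  have htw : |t * w| ≤ τ := by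
    rw [abs_mul]; nlinarith [abs_nonneg t, abs_nonneg w]
  have h1 : 1 - τ ≤ 1 + t * w := by linarith [(abs_le.1 htw).1]
  have h0 : 0 < 1 - τ := by linarith
  have ht2 : 0 ≤ 1 - t ^ 2 := by nlinarith [(abs_le.1 ht).1, (abs_le.1 ht).2]
  have ht3 : 1 - t ^ 2 ≤ 1 := by nlinarith [sq_nonneg t]
  have habs : 2 * |a| * (1 - τ) ≤ τ * (1 - t ^ 2) := by
    have h2 : |2 * a * (1 + t * w)| = τ * (1 - t ^ 2) := by
      rw [ha, abs_mul, abs_mul, hea, abs_of_nonneg hτ0, abs_of_nonneg ht2, one_mul]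
    rw [abs_mul, abs_mul, abs_of_pos (by linarith : 0 < 1 + t * w), abs_two] at h2
    nlinarith [abs_nonneg a]
  rw [he2, mul_one, mul_one]
  constructor
  · have e1 : a - τ / 2 * e * (1 - t ^ 2) = - (a * (t * w)) := by linear_combination ha / 2
    rw [e1, abs_neg, abs_mul, le_div_iff₀ (by positivity)]
    nlinarith [abs_nonneg a, abs_nonneg (t * w), mul_le_mul_of_nonneg_left htw
      (mul_nonneg (abs_nonneg a) h0.le), mul_le_mul_of_nonneg_left ht3 hτ0]
  · have h3 : (1 - t ^ 2) ^ 2 ≤ 2 * (1 - σ * t) := by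
      have h4 : 1 - t ^ 2 ≤ 2 * (1 - σ * t) := by
        rcases hσ with h | h <;> rw [h] <;> nlinarith [sq_nonneg (t - 1), sq_nonneg (t + 1)]
      nlinarith
    have h5 : (2 * |a| * (1 - τ)) ^ 2 ≤ (τ * (1 - t ^ 2)) ^ 2 :=
      pow_le_pow_left₀ (by positivity) habs 2
    rw [mul_pow, mul_pow, sq_abs, mul_pow] at h5
    rw [div_mul_eq_mul_div, le_div_iff₀ (by positivity)]
    nlinarith [mul_le_mul_of_nonneg_left h3 (sq_nonneg τ)]

lemma dop_tm_bounds {β : ℝ} (hβ : 0 ≤ β) (s : Edge d → Bool) (U : Finset (Site d)) (τ : Config d)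
    (x y : U) (η : U → Bool) :
    |dop y (tm β (fun e => spin (s e)) U τ x) η - Real.tanh (2 * β) / 2 * cpl s x y
        * (1 - tm β (fun e => spin (s e)) U τ x η ^ 2)|
      ≤ Real.tanh (2 * β) ^ 2 / (2 * (1 - Real.tanh (2 * β))) * cpl s x y ^ 2 ∧
    dop y (tm β (fun e => spin (s e)) U τ x) η ^ 2
      ≤ Real.tanh (2 * β) ^ 2 / (2 * (1 - Real.tanh (2 * β)) ^ 2) * cpl s x y ^ 2
        * (1 - spin (η x) * tm β (fun e => spin (s e)) U τ x η) := by
  have hη : glue U η τ y = η y := glue_of_mem _ _ y.2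
  set T := fld β (fun e => spin (s e)) (glue U η τ) x with hT
  have hd : dop y (tm β (fun e => spin (s e)) U τ x) η
      = (Real.tanh (T + β * cpl s x y * (1 - spin (η y)))
        - Real.tanh (T + β * cpl s x y * (-1 - spin (η y)))) / 2 := by
    simp only [dop, tm, glue_update, fld_update, hη, spin_true, spin_false, hT]
  have ht : tm β (fun e => spin (s e)) U τ x η = Real.tanh T := rfl
  rw [hd, ht]
  have hτ0 : 0 ≤ Real.tanh (2 * β) := tanh_nonneg' (by linarith)
  have hτ1 := Real.tanh_lt_one (2 * β)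
  have k1 := tanh_add_mul T (2 * β)
  have k2 := tanh_add_mul T (-(2 * β))
  rw [Real.tanh_neg] at k2
  rcases cpl_cases s x y with h | h
  · simp [h]
  have w1 : |Real.tanh (2 * β)| ≤ Real.tanh (2 * β) := by rw [abs_of_nonneg hτ0]
  have w2 : |-Real.tanh (2 * β)| ≤ Real.tanh (2 * β) := by rw [abs_neg, abs_of_nonneg hτ0]
  rcases h with h | h <;> rcases spin_cases (η y) with h' | h' <;> rw [h']
  · refine tanh_bounds hτ0 hτ1 (abs_tanh_le T) w2 (spin_cases _) (Or.inl h) ?_
    rw [h, show T + β * 1 * (1 - 1) = T by ring, show T + β * 1 * (-1 - 1) = T + -(2 * β) by ring]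
    linear_combination -k2
  · refine tanh_bounds hτ0 hτ1 (abs_tanh_le T) w1 (spin_cases _) (Or.inl h) ?_
    rw [h, show T + β * 1 * (1 - -1) = T + 2 * β by ring, show T + β * 1 * (-1 - -1) = T by ring]
    linear_combination k1
  · refine tanh_bounds hτ0 hτ1 (abs_tanh_le T) w1 (spin_cases _) (Or.inr h) ?_
    rw [h, show T + β * -1 * (1 - 1) = T by ring, show T + β * -1 * (-1 - 1) = T + 2 * β by ring]
    linear_combination -k1
  · refine tanh_bounds hτ0 hτ1 (abs_tanh_le T) w2 (spin_cases _) (Or.inr h) ?_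
    rw [h, show T + β * -1 * (1 - -1) = T + -(2 * β) by ring,
      show T + β * -1 * (-1 - -1) = T by ring]
    linear_combination k2

end Pool.Agent.P.MP_81d17b_pr
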