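import Pool.Agent.P.MP_81d17b_pr.Trace

/-! From the trace bound to a bound on the weighted bilinear form. -/

namespace Pool.Agent.P.MP_81d17b_pr

open Finset Matrix

section general

variable {ι : Type} [Fintype ι] [DecidableEq ι]

lemma trace_pow_eq (M : Matrix ι ι ℝ) (hM : M.IsSymm) (p : ℕ) :
    (M ^ (2 * p)).trace = ∑ i, ∑ j, (M ^ p) i j ^ 2 := by
  have hs : (M ^ p).IsSymm := hM.pow p
  rw [two_mul, pow_add]
  simp only [Matrix.trace, Matrix.diag, Matrix.mul_apply]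
  refine Finset.sum_congr rfl fun i _ => Finset.sum_congr rfl fun j _ => ?_
  rw [hs.apply i j, sq]

lemma trace_pow_nonneg (M : Matrix ι ι ℝ) (hM : M.IsSymm) (p : ℕ) :
    0 ≤ (M ^ (2 * p)).trace := by
  rw [trace_pow_eq M hM]
  exact Finset.sum_nonneg fun _ _ => Finset.sum_nonneg fun _ _ => sq_nonneg _

omit [DecidableEq ι] in
lemma dot_symm (M : Matrix ι ι ℝ) (hM : M.IsSymm) (a b : ι → ℝ) :
    (M *ᵥ a) ⬝ᵥ b = a ⬝ᵥ (M *ᵥ b) := by
  rw [Matrix.dotProduct_mulVec, ← Matrix.mulVec_transpose, hM.eq]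

omit [DecidableEq ι] in
lemma dot_sq_le (a b : ι → ℝ) : (a ⬝ᵥ b) ^ 2 ≤ (a ⬝ᵥ a) * (b ⬝ᵥ b) := by
  have := Finset.sum_mul_sq_le_sq_mul_sq Finset.univ a b
  simpa [dotProduct, sq] using this

lemma mulVec_sq_le (M : Matrix ι ι ℝ) (hM : M.IsSymm) (p : ℕ) (hp : 0 < p) {K : ℝ} (hK : 0 < K)
    (h : (M ^ (2 * p)).trace ≤ K ^ (2 * p)) (b : ι → ℝ) :
    (M *ᵥ b) ⬝ᵥ (M *ᵥ b) ≤ K ^ 2 * (b ⬝ᵥ b) := by
  by_contra hc
  push Not at hc
  set a : ℕ → ℝ := fun k => ((M ^ k) *ᵥ b) ⬝ᵥ ((M ^ k) *ᵥ b) with ha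
  have hnn : ∀ v : ι → ℝ, 0 ≤ v ⬝ᵥ v := fun v => Finset.sum_nonneg fun _ _ => mul_self_nonneg _
  have hsucc : ∀ k, (M ^ (k + 1)) *ᵥ b = M *ᵥ ((M ^ k) *ᵥ b) := by
    intro k; rw [pow_succ', Matrix.mulVec_mulVec]
  have hlog : ∀ k, a (k + 1) ^ 2 ≤ a k * a (k + 2) := by
    intro k
    have : a (k + 1) = ((M ^ k) *ᵥ b) ⬝ᵥ ((M ^ (k + 2)) *ᵥ b) := by
      simp only [ha]
      rw [hsucc (k + 1), ← dot_symm M hM, ← hsucc k]
    rw [this]
    exact dot_sq_le _ _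
  have hb0 : 0 < b ⬝ᵥ b := by
    rcases (hnn b).eq_or_lt with h0 | h0
    · have : b = 0 := dotProduct_self_eq_zero.1 h0.symm
      subst this
      simp at hc
    · exact h0
  have ha0 : a 0 = b ⬝ᵥ b := by simp [ha]
  have hstep : ∀ k, 0 < a k ∧ K ^ 2 * a k < a (k + 1) := by
    intro k
    induction k with
    | zero => exact ⟨ha0 ▸ hb0, by rw [ha0]; simpa [ha] using hc⟩
    | succ k ih =>
      have h1 : 0 < a (k + 1) := lt_trans (by have := ih.1; positivity) ih.2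
      refine ⟨h1, ?_⟩
      have h2 := hlog k
      have h3 : a k * (K ^ 2 * a (k + 1)) < a k * a (k + 2) := by nlinarith [ih.1, ih.2]
      exact lt_of_mul_lt_mul_left h3 ih.1.le
  have hgrow : ∀ k, K ^ (2 * (k + 1)) * a 0 < a (k + 1) := by
    intro k
    induction k with
    | zero => simpa using (hstep 0).2
    | succ k ih =>
      have h1 := (hstep (k + 1)).2
      have h2 : K ^ (2 * (k + 1 + 1)) * a 0 = K ^ 2 * (K ^ (2 * (k + 1)) * a 0) := by ring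
      rw [h2]
      exact lt_trans (mul_lt_mul_of_pos_left ih (by positivity)) h1
  have hup : a p ≤ (M ^ (2 * p)).trace * a 0 := by
    rw [trace_pow_eq M hM, ha0, Finset.sum_mul]
    simp only [ha, dotProduct]
    refine Finset.sum_le_sum fun i _ => ?_
    have := Finset.sum_mul_sq_le_sq_mul_sq Finset.univ (fun j => (M ^ p) i j) b
    simpa [Matrix.mulVec, dotProduct, sq] using this
  obtain ⟨k, rfl⟩ : ∃ k, p = k + 1 := ⟨p - 1, by omega⟩
  have h1 := hgrow k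
  have h2 := mul_le_mul_of_nonneg_right h (hstep 0).1.le
  linarith

lemma bil_of_trace (M : Matrix ι ι ℝ) (hM : M.IsSymm) (p : ℕ) (hp : 0 < p) {K : ℝ} (hK : 0 < K)
    (h : (M ^ (2 * p)).trace ≤ K ^ (2 * p)) (a b : ι → ℝ) :
    ∑ y, ∑ x, a y * M x y * b x ≤ K / 2 * (∑ y, a y ^ 2 + ∑ x, b x ^ 2) := by
  have h1 := mulVec_sq_le M hM p hp hK h b
  have h2 : ∑ y, ∑ x, a y * M x y * b x = ∑ y, a y * (M *ᵥ b) y := by
    refine Finset.sum_congr rfl fun y _ => ?_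
    simp only [Matrix.mulVec, dotProduct, Finset.mul_sum]
    refine Finset.sum_congr rfl fun x _ => ?_
    rw [hM.apply y x]; ring
  have h3 : ∀ y, a y * (M *ᵥ b) y ≤ K / 2 * a y ^ 2 + (M *ᵥ b) y * (M *ᵥ b) y / (2 * K) := by
    intro y
    have : 0 ≤ (K * a y - (M *ᵥ b) y) ^ 2 / (2 * K) := by positivity
    have e : (K * a y - (M *ᵥ b) y) ^ 2 / (2 * K)
        = K / 2 * a y ^ 2 + (M *ᵥ b) y * (M *ᵥ b) y / (2 * K) - a y * (M *ᵥ b) y := by
      field_simp; ring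
    linarith
  rw [h2]
  refine (Finset.sum_le_sum fun y _ => h3 y).trans ?_
  rw [Finset.sum_add_distrib, ← Finset.mul_sum, ← Finset.sum_div]
  have h4 : (∑ y, (M *ᵥ b) y * (M *ᵥ b) y) / (2 * K) ≤ K / 2 * ∑ x, b x ^ 2 := by
    rw [div_le_iff₀ (by positivity)]
    have : b ⬝ᵥ b = ∑ x, b x ^ 2 := by simp [dotProduct, sq]
    rw [this] at h1
    change ∑ y, (M *ᵥ b) y * (M *ᵥ b) y ≤ _ at h1
    nlinarith
  linarith

end general

variable {d : ℕ}

lemma mat_isSymm (s : Edge d → Bool) (B : Finset (Site d)) : (mat s B).IsSymm := by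
  ext x y
  simp only [mat, Matrix.transpose_apply, Matrix.of_apply]
  exact cpl_symm s y x

lemma trc_nonneg (B : Finset (Site d)) (p : ℕ) (s : Edge d → Bool) : 0 ≤ trc B p s :=
  trace_pow_nonneg _ (mat_isSymm s B) p

lemma bil_sub {s : Edge d → Bool} {B U : Finset (Site d)} (hU : U ⊆ B) {p : ℕ} (hp : 0 < p)
    {K : ℝ} (hK : 0 < K) (h : trc B p s ≤ K ^ (2 * p)) (a b : U → ℝ) :
    ∑ y : U, ∑ x : U, a y * cpl s x y * b x ≤ K / 2 * (∑ y, a y ^ 2 + ∑ x, b x ^ 2) := by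
  let a' : Site d → ℝ := fun y => if h : y ∈ U then a ⟨y, h⟩ else 0
  let b' : Site d → ℝ := fun y => if h : y ∈ U then b ⟨y, h⟩ else 0
  have h1 := bil_of_trace (mat s B) (mat_isSymm s B) p hp hK h (fun y => a' y) (fun y => b' y)
  have key : ∀ F : Site d → ℝ, (∀ y, y ∉ U → F y = 0) → ∑ y : B, F y = ∑ y : U, F y := by
    intro F hF
    rw [Finset.sum_coe_sort B F, Finset.sum_coe_sort U F]
    exact (Finset.sum_subset hU fun y _ hy => hF y hy).symm
  have e1 : ∑ y : B, a' y ^ 2 = ∑ y, a y ^ 2 := by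
    rw [key (fun y => a' y ^ 2) fun y hy => by simp [a', hy]]
    exact Finset.sum_congr rfl fun y _ => by simp [a']
  have e2 : ∑ y : B, b' y ^ 2 = ∑ y, b y ^ 2 := by
    rw [key (fun y => b' y ^ 2) fun y hy => by simp [b', hy]]
    exact Finset.sum_congr rfl fun y _ => by simp [b']
  have e3 : ∑ y : B, ∑ x : B, a' y * mat s B x y * b' x
      = ∑ y : U, ∑ x : U, a y * cpl s x y * b x := by
    simp only [mat, Matrix.of_apply]
    rw [key (fun y => ∑ x : B, a' y * cpl s x y * b' x) fun y hy => by simp [a', hy]]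
    refine Finset.sum_congr rfl fun y _ => ?_
    rw [key (fun x => a' y * cpl s x y * b' x) fun x hx => by simp [b', hx]]
    exact Finset.sum_congr rfl fun x _ => by simp [a', b']
  rwa [e1, e2, e3] at h1

/-- `(cos (n π / 2), sin (n π / 2))`. -/
def cs : ℕ → ℝ × ℝ
  | 0 => (1, 0)
  | n + 1 => (-(cs n).2, (cs n).1)

lemma cs_sq (n : ℕ) : (cs n).1 ^ 2 + (cs n).2 ^ 2 = 1 := by
  induction n with
  | zero => simp [cs]
  | succ n ih => simp only [cs]; linarith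

lemma bil_weighted {s : Edge d → Bool} {B U : Finset (Site d)} (hU : U ⊆ B) {p : ℕ} (hp : 0 < p)
    {K : ℝ} (hK : 0 < K) (h : trc B p s ≤ K ^ (2 * p)) (x₀ : Site d) {g : ℝ} (hg : 1 ≤ g)
    (a b : U → ℝ) :
    ∑ y : U, ∑ x : U, a y * cpl s x y * b x * (g ^ dist1 y.1 x₀ / g ^ dist1 x.1 x₀)
      ≤ K * g / 2 * (∑ y, a y ^ 2 + ∑ x, b x ^ 2) := by
  have hg0 : 0 < g := by linarith
  set C : U → ℝ := fun x => (cs (dist1 x.1 x₀)).1 with hC
  set S : U → ℝ := fun x => (cs (dist1 x.1 x₀)).2 with hS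
  have hCS : ∀ x, C x ^ 2 + S x ^ 2 = 1 := fun x => cs_sq _
  have h1 := bil_sub hU hp hK h a b
  have h2 := bil_sub hU hp hK h (fun y => a y * S y) (fun x => b x * C x)
  have h3 := bil_sub hU hp hK h (fun y => - (a y * C y)) (fun x => b x * S x)
  have hterm : ∀ y x : U, a y * cpl s x y * b x * (g ^ dist1 y.1 x₀ / g ^ dist1 x.1 x₀)
      = (g + g⁻¹) / 2 * (a y * cpl s x y * b x)
        + (g - g⁻¹) / 2 * (a y * S y * cpl s x y * (b x * C x)
          + - (a y * C y) * cpl s x y * (b x * S x)) := by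
    intro y x
    by_cases hc : cpl s x y = 0
    · rw [hc]; ring
    obtain ⟨k, hk⟩ := exists_nbr_of_cpl_ne hc
    rcases dist1_nbr x.1 x₀ k with e | e <;> rw [hk] at e
    · have e1 : C y = - S x := by simp only [hC, hS, e, cs]
      have e2 : S y = C x := by simp only [hC, hS, e, cs]
      have e3 : g ^ dist1 y.1 x₀ / g ^ dist1 x.1 x₀ = g := by rw [e, pow_succ]; field_simp
      rw [e1, e2, e3]
      linear_combination (-(g - g⁻¹) / 2 * (a y * cpl s x y * b x)) * hCS x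
    · have e1 : C x = - S y := by simp only [hC, hS, e, cs]
      have e2 : S x = C y := by simp only [hC, hS, e, cs]
      have e3 : g ^ dist1 y.1 x₀ / g ^ dist1 x.1 x₀ = g⁻¹ := by rw [e, pow_succ]; field_simp
      rw [e1, e2, e3]
      linear_combination ((g - g⁻¹) / 2 * (a y * cpl s x y * b x)) * hCS y
  have hsum : ∑ y : U, ∑ x : U, a y * cpl s x y * b x * (g ^ dist1 y.1 x₀ / g ^ dist1 x.1 x₀)
      = (g + g⁻¹) / 2 * ∑ y : U, ∑ x : U, a y * cpl s x y * b x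
        + (g - g⁻¹) / 2 * (∑ y : U, ∑ x : U, a y * S y * cpl s x y * (b x * C x)
          + ∑ y : U, ∑ x : U, - (a y * C y) * cpl s x y * (b x * S x)) := by
    simp only [hterm, Finset.mul_sum, ← Finset.sum_add_distrib]
  have ea : ∑ y, (a y * S y) ^ 2 + ∑ y, (- (a y * C y)) ^ 2 = ∑ y, a y ^ 2 := by
    rw [← Finset.sum_add_distrib]
    exact Finset.sum_congr rfl fun y _ => by linear_combination (a y ^ 2) * hCS y
  have eb : ∑ y, (b y * C y) ^ 2 + ∑ y, (b y * S y) ^ 2 = ∑ y, b y ^ 2 := by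
    rw [← Finset.sum_add_distrib]
    exact Finset.sum_congr rfl fun y _ => by linear_combination (b y ^ 2) * hCS y
  have hinv : g⁻¹ ≤ 1 := inv_le_one_of_one_le₀ hg
  have hinv0 : 0 < g⁻¹ := inv_pos.2 hg0
  have c1 : 0 ≤ (g + g⁻¹) / 2 := by positivity
  have c2 : 0 ≤ (g - g⁻¹) / 2 := by linarith
  have h23 : ∑ y : U, ∑ x : U, a y * S y * cpl s x y * (b x * C x)
      + ∑ y : U, ∑ x : U, - (a y * C y) * cpl s x y * (b x * S x)
      ≤ K / 2 * (∑ y, a y ^ 2 + ∑ x, b x ^ 2) := by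
    rw [← ea, ← eb]; linarith
  rw [hsum]
  have k1 := mul_le_mul_of_nonneg_left h1 c1
  have k2 := mul_le_mul_of_nonneg_left h23 c2
  linarith

end Pool.Agent.P.MP_81d17b_pr
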