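import Pool.Agent.P.MP_81d17b_pr.Chain

/-! The expected weight of the chains, and the almost sure decay of the boundary influence. -/

namespace Pool.Agent.P.MP_81d17b_pr

open Finset Function MeasureTheory ProbabilityTheory

variable {d : ℕ}

/-- The edges that the chains avoiding `F` can see. -/
noncomputable def seen (U F : Finset (Site d)) : Finset (Edge d) :=
  (U.filter fun x => ∀ z ∈ F, 2 * (64 * d) < dist1 x z).biUnion fun x => edgesIn (ball x (64 * d))

lemma seen_mono (U : Finset (Site d)) {F F' : Finset (Site d)} (h : F' ⊆ F) :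
    seen U F ⊆ seen U F' := by
  apply Finset.biUnion_subset_biUnion_of_subset_left
  intro x hx
  rw [Finset.mem_filter] at hx ⊢
  exact ⟨hx.1, fun z hz => hx.2 z (h hz)⟩

lemma edgesIn_subset_seen {U F : Finset (Site d)} {x y : Site d}
    (hx : x ∈ nxt (2 * (64 * d)) U F y) : edgesIn (ball x (64 * d)) ⊆ seen U F := by
  obtain ⟨h1, -, h3⟩ := mem_nxt.1 hx
  exact Finset.subset_biUnion_of_mem (fun x => edgesIn (ball x (64 * d)))
    (Finset.mem_filter.2 ⟨h1, h3⟩)

lemma disjoint_seen (U F : Finset (Site d)) (x : Site d) :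
    Disjoint (edgesIn (ball x (64 * d))) (seen U (insert x F)) := by
  rw [Finset.disjoint_left]
  intro e he he'
  obtain ⟨z, hz, hz'⟩ := Finset.mem_biUnion.1 he'
  have h1 := mem_ball.1 (mem_edgesIn.1 he).1
  have h2 := mem_ball.1 (mem_edgesIn.1 hz').1
  have h3 := (Finset.mem_filter.1 hz).2 x (Finset.mem_insert_self _ _)
  have h4 := dist1_triangle z e.1 x
  rw [dist1_comm z e.1] at h4
  omega

lemma dep_qv (x : Site d) : Dep (edgesIn (ball x (64 * d))) fun s => qv s x := by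
  intro s s' h
  simp only [qv, dep_trc _ _ s s' h]

lemma dep_chn (n : ℕ) (U : Finset (Site d)) : ∀ (F : Finset (Site d)) (y : Site d),
    Dep (seen U F) fun s => chn (qv s) (2 * (64 * d)) n U F y := by
  induction n with
  | zero => intro F y s s' _; rfl
  | succ n ih =>
    intro F y s s' h
    simp only [chn]
    refine Finset.sum_congr rfl fun x hx => ?_
    have h1 := ((dep_qv x).mono (edgesIn_subset_seen hx)) s s' h
    have h2 := ((ih (insert x F) x).mono (seen_mono U (Finset.subset_insert x F))) s s' h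
    simp only at h1 h2
    rw [h1, h2]

lemma avg_qv_le (hd : 2 ≤ d) (x : Site d) {E : Finset (Edge d)}
    (hE : edgesIn (ball x (64 * d)) ⊆ E) : avg E (fun s => qv s x) ≤ 1 / 2 / 720 ^ d := by
  have hd' : (0 : ℝ) < d := by exact_mod_cast (by omega : 0 < d)
  have h1 := avg_trc_le hE (16 * d) (by omega)
  have h2 : avg E (fun s => qv s x)
      = dlt d + (thr d)⁻¹ * avg E (trc (ball x (64 * d)) (16 * d)) := by
    unfold avg qv
    rw [gam_add, gam_const one_pos', ← gam_mul_left]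
    congr 1
    exact gam_congr fun s _ => by rw [div_eq_inv_mul]
  have h3 : thr d = (169 * d) ^ (16 * d) := by
    unfold thr
    rw [pow_mul, mul_pow, Real.sq_sqrt hd'.le]
    norm_num
  have h4 : dlt d * 720 ^ d ≤ 1 / 4 := by
    have e : dlt d * 720 ^ d = 6 * (21 * 720 / (6 / 5) ^ 64) ^ d := by
      unfold dlt
      rw [pow_mul, div_pow (21 * 720 : ℝ), mul_pow]; ring
    have : ((21 * 720 / (6 / 5) ^ 64 : ℝ)) ^ d ≤ (21 * 720 / (6 / 5) ^ 64) ^ 2 :=
      pow_le_pow_of_le_one (by positivity) (by norm_num) hd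
    rw [e]
    refine le_trans (mul_le_mul_of_nonneg_left this (by norm_num)) (by norm_num)
  have h5 : (thr d)⁻¹ * avg E (trc (ball x (64 * d)) (16 * d)) * 720 ^ d ≤ 1 / 4 := by
    have a1 : avg E (trc (ball x (64 * d)) (16 * d)) ≤ (21 ^ d) ^ 2 * (72 * d) ^ (16 * d) := by
      refine h1.trans ?_
      have : (4 * (2 * d + ((16 * d : ℕ) : ℝ))) = 72 * d := by push_cast; ring
      rw [this]
      exact mul_le_mul_of_nonneg_right (card_ball_R x) (by positivity)
    have e : (thr d)⁻¹ * ((21 ^ d) ^ 2 * (72 * d) ^ (16 * d)) * 720 ^ d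
        = (21 ^ 2 * (72 / 169) ^ 16 * 720 : ℝ) ^ d := by
      rw [h3, mul_pow, mul_pow, mul_pow, mul_pow, ← pow_mul, ← pow_mul, ← pow_mul, div_pow,
        mul_comm d 2]
      field_simp
    have : ((21 ^ 2 * (72 / 169) ^ 16 * 720 : ℝ)) ^ d ≤ (21 ^ 2 * (72 / 169) ^ 16 * 720) ^ 2 :=
      pow_le_pow_of_le_one (by positivity) (by norm_num) hd
    calc _ ≤ (thr d)⁻¹ * ((21 ^ d) ^ 2 * (72 * d) ^ (16 * d)) * 720 ^ d := by
          have := (thr_pos hd).le
          gcongr
      _ ≤ _ := by rw [e]; exact this.trans (by norm_num)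
  rw [h2, le_div_iff₀ (by positivity)]
  linarith

lemma avg_chn_le (hd : 2 ≤ d) (n : ℕ) (U : Finset (Site d)) {E : Finset (Edge d)}
    (hE : seen U ∅ ⊆ E) : ∀ (F : Finset (Site d)) (y : Site d),
    avg E (fun s => chn (qv s) (2 * (64 * d)) n U F y) ≤ (1 / 2) ^ n := by
  induction n with
  | zero => intro F y; exact (gam_const one_pos' E _ 1).le
  | succ n ih =>
    intro F y
    simp only [chn]
    unfold avg
    rw [gam_sum]
    have h1 : ∀ x ∈ nxt (2 * (64 * d)) U F y,
        avg E (fun s => qv s x * chn (qv s) (2 * (64 * d)) n U (insert x F) x)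
          ≤ 1 / 2 / 720 ^ d * (1 / 2) ^ n := by
      intro x hx
      have hx' := (edgesIn_subset_seen hx).trans ((seen_mono U (Finset.empty_subset F)).trans hE)
      rw [avg_mul hx' (disjoint_seen U F x) (dep_qv x) (dep_chn n U _ x)]
      exact mul_le_mul (avg_qv_le hd x hx') (ih _ _)
        (le_gam one_pos' fun s _ => chn_nonneg (qv_nonneg hd s) _ _ _ _ _) (by positivity)
    refine (Finset.sum_le_sum h1).trans ?_
    have h2 : ((nxt (2 * (64 * d)) U F y).card : ℝ) ≤ 720 ^ d := by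
      refine le_trans ?_ (card_ball_r hd y)
      have : nxt (2 * (64 * d)) U F y ⊆ ball y (2 * (64 * d) + 1) :=
        fun x hx => mem_ball.2 (mem_nxt.1 hx).2.1.le
      exact_mod_cast Finset.card_le_card this
    rw [Finset.sum_const, nsmul_eq_mul]
    calc _ ≤ 720 ^ d * (1 / 2 / 720 ^ d * (1 / 2 : ℝ) ^ n) :=
          mul_le_mul_of_nonneg_right h2 (by positivity)
      _ = _ := by rw [pow_succ]; field_simp

/-- The box `[-n, n]^d`. -/
noncomputable def box (d n : ℕ) : Finset (Site d) :=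
  Finset.Icc (fun _ => -(n : ℤ)) (fun _ => (n : ℤ))

lemma mem_box {n : ℕ} {x : Site d} : x ∈ box d n ↔ ∀ i, -(n : ℤ) ≤ x i ∧ x i ≤ n := by
  simp [box, Finset.mem_Icc, Pi.le_def, forall_and]

lemma card_box (n : ℕ) : (box d n).card = (2 * n + 1) ^ d := by
  have : ((n : ℤ) + 1 - -(n : ℤ)).toNat = 2 * n + 1 := by omega
  simp only [box, Pi.card_Icc, Int.card_Icc, this, Finset.prod_const, Finset.card_univ,
    Fintype.card_fin]

lemma box_mono {m n : ℕ} (h : m ≤ n) : box d m ⊆ box d n := by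
  intro x hx
  rw [mem_box] at hx ⊢
  intro i; have := hx i; omega

lemma nbr_mem_box {n : ℕ} {x : Site d} (hx : x ∈ box d n) (k : Dir d) :
    nbr x k ∈ box d (n + 1) := by
  rw [mem_box] at hx ⊢
  intro i
  have := hx i
  rw [nbr_apply]
  split_ifs <;> omega

lemma dist_box {m j : ℕ} {y w : Site d} (hy : y ∉ box d (m + j)) (hw : w ∈ box d m) :
    j ≤ dist1 y w := by
  rw [mem_box] at hy hw
  push Not at hy
  obtain ⟨i, hi⟩ := hy
  have h1 := hw i
  have h2 := coord_le_dist1 y w i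
  omega

lemma exists_box (S : Finset (Site d)) : ∃ m, S ⊆ box d m := by
  refine ⟨S.sup fun x => dist1 x 0, fun x hx => mem_box.2 fun i => ?_⟩
  have h1 : dist1 x 0 ≤ S.sup fun x => dist1 x 0 := Finset.le_sup (f := fun x => dist1 x 0) hx
  have h2 := coord_le_dist1 x 0 i
  simp only [Pi.zero_apply, sub_zero] at h2
  omega

/-- The size of the box used with chains of `n` points. -/
def sz (d m n : ℕ) : ℕ := m + n * (2 * (64 * d) + 1)

/-- The bound on the boundary influence. -/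
noncomputable def infl (m n : ℕ) (s : Edge d → Bool) : ℝ :=
  ∑ y ∈ box d (sz d m n + 1) \ box d (sz d m n),
    chn (qv s) (2 * (64 * d)) n (box d (sz d m n)) (box d (sz d m n + 1) \ box d (sz d m n)) y

lemma gam_box_le (hd : 2 ≤ d) {β : ℝ} (hβ0 : 0 < β) (hβ : β ≤ 1 / (20 * Real.sqrt d))
    (s : Edge d → Bool) (m n : ℕ) {f : Config d → ℝ} (hf : Dep (box d m) f)
    (hf0 : ∀ σ, 0 ≤ f σ) (hf1 : ∀ σ, f σ ≤ 1) (τ τ' : Config d) :
    |gam (wt β (fun e => spin (s e)) (box d (sz d m n))) (box d (sz d m n)) f τ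
      - gam (wt β (fun e => spin (s e)) (box d (sz d m n))) (box d (sz d m n)) f τ'|
      ≤ infl m n s :=
  chain_bound' hd hβ0 hβ s _ _ _ hf hf0 hf1 n
    (fun _ hx k hk => Finset.mem_sdiff.2 ⟨nbr_mem_box hx k, hk⟩) (box_mono (Nat.le_add_right _ _))
    (fun _ hy _ hw => dist_box (Finset.mem_sdiff.1 hy).2 hw) τ τ'

lemma infl_nonneg (hd : 2 ≤ d) (m n : ℕ) (s : Edge d → Bool) : 0 ≤ infl m n s :=
  Finset.sum_nonneg fun _ _ => chn_nonneg (qv_nonneg hd s) _ _ _ _ _

lemma dep_infl (m n : ℕ) : Dep (seen (box d (sz d m n)) ∅) (infl m n) := by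
  intro s s' h
  exact Finset.sum_congr rfl fun y _ =>
    ((dep_chn n _ _ y).mono (seen_mono _ (Finset.empty_subset _))) s s' h

lemma avg_infl_le (hd : 2 ≤ d) (m n : ℕ) :
    avg (seen (box d (sz d m n)) ∅) (infl m n) ≤ (2 * (sz d m n + 1) + 1) ^ d * (1 / 2) ^ n := by
  unfold infl avg
  rw [gam_sum]
  refine (Finset.sum_le_sum fun y _ => avg_chn_le hd n _ (Finset.Subset.refl _) _ y).trans ?_
  rw [Finset.sum_const, nsmul_eq_mul]
  refine mul_le_mul_of_nonneg_right ?_ (by positivity)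
  have := (Finset.card_le_card (Finset.sdiff_subset (s := box d (sz d m n + 1))
    (t := box d (sz d m n)))).trans (card_box _).le
  exact_mod_cast this

lemma tendsto_bound (d m : ℕ) : Filter.Tendsto
    (fun n : ℕ => ((2 * (sz d m n + 1) + 1 : ℝ)) ^ d * (1 / 2) ^ n) Filter.atTop (nhds 0) := by
  set c : ℝ := 2 * m + 3 + 2 * (2 * (64 * d) + 1) with hc
  have h1 := tendsto_pow_const_mul_const_pow_of_abs_lt_one d
    (r := (1 / 2 : ℝ)) (by rw [abs_of_pos] <;> norm_num)
  have h2 := h1.const_mul (c ^ d)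
  rw [mul_zero] at h2
  refine squeeze_zero' (Filter.Eventually.of_forall fun n => by positivity) ?_ h2
  filter_upwards [Filter.eventually_ge_atTop 1] with n hn
  rw [← mul_assoc, ← mul_pow]
  refine mul_le_mul_of_nonneg_right (pow_le_pow_left₀ (by positivity) ?_ d) (by positivity)
  have hn' : (1 : ℝ) ≤ n := by exact_mod_cast hn
  have hm : (0 : ℝ) ≤ m := Nat.cast_nonneg _
  simp only [sz, hc]
  push_cast
  nlinarith

section measure

variable {Ω : Type} [MeasurableSpace Ω] {P : Measure Ω} [IsProbabilityMeasure P]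
  {J : Edge d → Ω → ℝ}

/-- The signs of the couplings. -/
noncomputable def sgn (J : Edge d → Ω → ℝ) (ω : Ω) : Edge d → Bool := fun e => decide (J e ω = 1)

lemma meas_cyl (hm : ∀ e, Measurable (J e)) (hind : iIndepFun J P)
    (hplus : ∀ e, P {ω | J e ω = 1} = 1 / 2) (E : Finset (Edge d)) (σ : Edge d → Bool) :
    P {ω | ∀ e ∈ E, sgn J ω e = σ e} = (1 / 2) ^ E.card := by
  let S : Edge d → Set ℝ := fun e => if σ e then {1} else {1}ᶜ
  have h1 : {ω | ∀ e ∈ E, sgn J ω e = σ e} = ⋂ e ∈ E, J e ⁻¹' S e := by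
    ext ω
    simp only [Set.mem_ofPred_eq, Set.mem_iInter, Set.mem_preimage]
    refine forall₂_congr fun e _ => ?_
    cases h : σ e <;> simp [S, sgn, h]
  have h2 : ∀ e, MeasurableSet (S e) := by
    intro e
    cases h : σ e <;> simp [S, h]
  have h3 : ∀ e, P (J e ⁻¹' S e) = 1 / 2 := by
    intro e
    have a1 : P (J e ⁻¹' {1}) = 1 / 2 := hplus e
    cases h : σ e
    · simp only [S, h, Bool.false_eq_true, if_false, Set.preimage_compl]
      rw [prob_compl_eq_one_sub (hm e (measurableSet_singleton 1)), a1]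
      norm_num
    · simpa [S, h] using a1
  rw [h1, hind.measure_inter_preimage_eq_mul E fun e _ => h2 e]
  simp only [h3, Finset.prod_const]

lemma markov (hm : ∀ e, Measurable (J e)) (hind : iIndepFun J P)
    (hplus : ∀ e, P {ω | J e ω = 1} = 1 / 2) {E : Finset (Edge d)} {X : (Edge d → Bool) → ℝ}
    (hX : Dep E X) (hX0 : ∀ s, 0 ≤ X s) {ε : ℝ} (hε : 0 < ε) :
    P {ω | ε < X (sgn J ω)} ≤ ENNReal.ofReal (avg E X / ε) := by
  set T := (confs E fun _ => true).filter fun σ => ε < X σ with hT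
  have h1 : {ω | ε < X (sgn J ω)} ⊆ ⋃ σ ∈ T, {ω | ∀ e ∈ E, sgn J ω e = σ e} := by
    intro ω hω
    simp only [Set.mem_iUnion, Set.mem_ofPred_eq] at hω ⊢
    refine ⟨glue E (fun e => sgn J ω e) fun _ => true, Finset.mem_filter.2 ⟨?_, ?_⟩, ?_⟩
    · exact mem_confs.2 fun e he => glue_of_notMem _ _ he
    · rwa [hX _ (sgn J ω) fun e he => glue_of_mem _ _ he]
    · exact fun e he => (glue_of_mem (fun e : E => sgn J ω e) _ he).symm
  have h2 : (T.card : ℝ) * (1 / 2) ^ E.card ≤ avg E X / ε := by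
    unfold avg gam part
    simp only [one_mul, Finset.sum_const, card_confs, nsmul_eq_mul, mul_one]
    rw [le_div_iff₀ hε, le_div_iff₀ (by positivity)]
    have a1 : (T.card : ℝ) * ε ≤ ∑ σ ∈ T, X σ := by
      rw [← nsmul_eq_mul, ← Finset.sum_const]
      exact Finset.sum_le_sum fun σ hσ => (Finset.mem_filter.1 hσ).2.le
    have a2 : ∑ σ ∈ T, X σ ≤ ∑ σ ∈ confs E fun _ => true, X σ :=
      Finset.sum_le_sum_of_subset_of_nonneg (Finset.filter_subset _ _) fun σ _ _ => hX0 σ
    have a3 : (T.card : ℝ) * (1 / 2) ^ E.card * ε * ((2 ^ E.card : ℕ) : ℝ) = T.card * ε := by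
      push_cast
      rw [one_div, inv_pow]
      field_simp
    linarith
  calc P {ω | ε < X (sgn J ω)} ≤ ∑ σ ∈ T, P {ω | ∀ e ∈ E, sgn J ω e = σ e} :=
        (measure_mono h1).trans (measure_biUnion_finset_le _ _)
    _ = ENNReal.ofReal ((T.card : ℝ) * (1 / 2) ^ E.card) := by
        simp only [meas_cyl hm hind hplus, Finset.sum_const, nsmul_eq_mul]
        rw [ENNReal.ofReal_mul (Nat.cast_nonneg _), ENNReal.ofReal_natCast,
          ENNReal.ofReal_pow (by norm_num), ENNReal.ofReal_div_of_pos (by norm_num)]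
        simp
    _ ≤ _ := ENNReal.ofReal_le_ofReal h2

lemma ae_infl (hd : 2 ≤ d) (hm : ∀ e, Measurable (J e)) (hind : iIndepFun J P)
    (hplus : ∀ e, P {ω | J e ω = 1} = 1 / 2) :
    ∀ᵐ ω ∂P, ∀ m : ℕ, ∀ ε : ℝ, 0 < ε → ∃ n, infl m n (sgn J ω) ≤ ε := by
  have key : ∀ m j : ℕ, ∀ᵐ ω ∂P, ∃ n, infl m n (sgn J ω) ≤ 1 / ((j : ℝ) + 1) := by
    intro m j
    have hε : (0 : ℝ) < 1 / ((j : ℝ) + 1) := by positivity
    rw [ae_iff]
    have h1 : ∀ n, P {ω | ¬∃ n, infl m n (sgn J ω) ≤ 1 / ((j : ℝ) + 1)}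
        ≤ ENNReal.ofReal (((2 * (sz d m n + 1) + 1 : ℝ)) ^ d * (1 / 2) ^ n / (1 / ((j : ℝ) + 1))) := by
      intro n
      refine le_trans (measure_mono ?_) ((markov hm hind hplus (dep_infl m n)
        (infl_nonneg hd m n) hε).trans (ENNReal.ofReal_le_ofReal ?_))
      · intro ω hω
        exact not_le.1 fun h => hω ⟨n, h⟩
      · exact div_le_div_of_nonneg_right (avg_infl_le hd m n) hε.le
    have h2 := ENNReal.tendsto_ofReal ((tendsto_bound d m).div_const (1 / ((j : ℝ) + 1)))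
    rw [zero_div, ENNReal.ofReal_zero] at h2
    exact le_antisymm (ge_of_tendsto' h2 h1) zero_le
  filter_upwards [ae_all_iff.2 fun m => ae_all_iff.2 (key m)] with ω hω m ε hε
  obtain ⟨j, hj⟩ := exists_nat_one_div_lt hε
  obtain ⟨n, hn⟩ := hω m j
  exact ⟨n, hn.trans hj.le⟩

lemma ae_sgn (hm : ∀ e, Measurable (J e)) (hplus : ∀ e, P {ω | J e ω = 1} = 1 / 2)
    (hminus : ∀ e, P {ω | J e ω = -1} = 1 / 2) :
    ∀ᵐ ω ∂P, (fun e => J e ω) = fun e => spin (sgn J ω e) := by
  have key : ∀ e, ∀ᵐ ω ∂P, J e ω = spin (sgn J ω e) := by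
    intro e
    have m1 : MeasurableSet {ω | J e ω = 1} := hm e (measurableSet_singleton 1)
    have m2 : MeasurableSet {ω | J e ω = -1} := hm e (measurableSet_singleton (-1))
    have h1 : P ({ω | J e ω = 1} ∪ {ω | J e ω = -1}) = 1 := by
      rw [measure_union _ m2, hplus, hminus, ENNReal.add_halves]
      rw [Set.disjoint_left]
      intro ω h1 h2
      simp only [Set.mem_ofPred_eq] at h1 h2
      linarith
    have h2 : ∀ᵐ ω ∂P, ω ∈ {ω | J e ω = 1} ∪ {ω | J e ω = -1} :=
      (mem_ae_iff_prob_eq_one (m1.union m2)).2 h1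
    filter_upwards [h2] with ω hω
    rcases hω with h | h
    · simp only [Set.mem_ofPred_eq] at h
      simp [sgn, spin, h]
    · simp only [Set.mem_ofPred_eq] at h
      have : ¬ ((-1 : ℝ) = 1) := by norm_num
      simp [sgn, spin, h, this]
  filter_upwards [ae_all_iff.2 key] with ω hω
  exact funext hω

end measure

end Pool.Agent.P.MP_81d17b_pr
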