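import Pool.Agent.P.MP_81d17b_pr.Defs

/-! A maximum principle for the heat-bath generator in a weighted square norm, and the resulting
comparison of two stationary measures. -/

namespace Pool.Agent.P.MP_81d17b_pr

open Finset Function

set_option linter.unusedSectionVars false

variable {ι : Type} [Fintype ι] [DecidableEq ι]

lemma spin_true : spin true = 1 := by simp [spin]
lemma spin_false : spin false = -1 := by simp [spin]
lemma spin_sq (b : Bool) : spin b * spin b = 1 := by cases b <;> simp [spin]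
lemma spin_cases (b : Bool) : spin b = 1 ∨ spin b = -1 := by cases b <;> simp [spin]
lemma abs_spin (b : Bool) : |spin b| = 1 := by cases b <;> simp [spin]

/-- Discrete derivative. -/
noncomputable def dop (y : ι) (F : (ι → Bool) → ℝ) (σ : ι → Bool) : ℝ :=
  (F (update σ y true) - F (update σ y false)) / 2

lemma upd_true (y : ι) (F : (ι → Bool) → ℝ) (σ : ι → Bool) :
    F (update σ y true) = F σ + (1 - spin (σ y)) * dop y F σ := by
  cases h : σ y
  · have : update σ y false = σ := by rw [← h]; exact update_eq_self y σ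
    simp only [dop, this, spin_false]; ring
  · have : update σ y true = σ := by rw [← h]; exact update_eq_self y σ
    simp only [dop, this, spin_true]; ring

lemma upd_false (y : ι) (F : (ι → Bool) → ℝ) (σ : ι → Bool) :
    F (update σ y false) = F σ - (1 + spin (σ y)) * dop y F σ := by
  cases h : σ y
  · have : update σ y false = σ := by rw [← h]; exact update_eq_self y σ
    simp only [dop, this, spin_false]; ring
  · have : update σ y true = σ := by rw [← h]; exact update_eq_self y σ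
    simp only [dop, this, spin_true]; ring

lemma upd_flip (y : ι) (F : (ι → Bool) → ℝ) (σ : ι → Bool) :
    F (update σ y (!σ y)) = F σ - 2 * spin (σ y) * dop y F σ := by
  cases h : σ y
  · have := upd_true y F σ
    simp only [h, spin_false, Bool.not_false] at this ⊢; rw [this]; ring
  · have := upd_false y F σ
    simp only [h, spin_true, Bool.not_true] at this ⊢; rw [this]; ring

lemma dop_mul (y : ι) (F G : (ι → Bool) → ℝ) (σ : ι → Bool) :
    dop y (fun σ => F σ * G σ) σ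
      = dop y F σ * G σ + F σ * dop y G σ - 2 * spin (σ y) * dop y F σ * dop y G σ := by
  have h1 := upd_true y F σ
  have h2 := upd_false y F σ
  have h3 := upd_true y G σ
  have h4 := upd_false y G σ
  show (F (update σ y true) * G (update σ y true) - F (update σ y false) * G (update σ y false)) / 2
    = _
  rw [h1, h2, h3, h4]; ring

lemma dop_update (y : ι) (F : (ι → Bool) → ℝ) (σ : ι → Bool) (b : Bool) :
    dop y F (update σ y b) = dop y F σ := by
  simp [dop, update_idem]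

lemma dop_dop_self (y : ι) (F : (ι → Bool) → ℝ) (σ : ι → Bool) : dop y (dop y F) σ = 0 := by
  simp [dop, update_idem]

lemma dop_comm (x y : ι) (F : (ι → Bool) → ℝ) (σ : ι → Bool) :
    dop x (dop y F) σ = dop y (dop x F) σ := by
  by_cases h : x = y
  · subst h; rfl
  · simp only [dop]
    rw [update_comm h true true σ, update_comm h true false σ, update_comm h false true σ,
      update_comm h false false σ]
    ring

lemma dop_spin (x y : ι) (σ : ι → Bool) :
    dop y (fun σ => spin (σ x)) σ = if x = y then 1 else 0 := by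
  by_cases h : x = y
  · subst h; simp [dop, spin]
  · simp [dop, h]

/-- The heat-bath generator with conditional means `t`. -/
noncomputable def gen (t : ι → (ι → Bool) → ℝ) (u : (ι → Bool) → ℝ) (σ : ι → Bool) : ℝ :=
  ∑ x, (t x σ - spin (σ x)) * dop x u σ

lemma dop_gen (t : ι → (ι → Bool) → ℝ) (u : (ι → Bool) → ℝ)
    (y : ι) (σ : ι → Bool) :
    dop y (gen t u) σ = - dop y u σ + ∑ x, (dop y (t x) σ * dop x u σ
      + (t x σ - spin (σ x)) * dop x (dop y u) σ
      - 2 * spin (σ y) * dop y (t x) σ * dop x (dop y u) σ) := by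
  have h0 : dop y (gen t u) σ
      = ∑ x, dop y (fun σ => (t x σ - spin (σ x)) * dop x u σ) σ := by
    simp only [dop, gen, ← Finset.sum_sub_distrib, Finset.sum_div]
  have h1 : ∀ x, dop y (fun σ => (t x σ - spin (σ x)) * dop x u σ) σ
      = - (if x = y then dop y u σ else 0) + (dop y (t x) σ * dop x u σ
      + (t x σ - spin (σ x)) * dop x (dop y u) σ
      - 2 * spin (σ y) * dop y (t x) σ * dop x (dop y u) σ) := by
    intro x
    have h2 : dop y (fun σ => t x σ - spin (σ x)) σ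
        = dop y (t x) σ - (if x = y then 1 else 0) := by
      rw [← dop_spin x y σ]; simp only [dop]; ring
    rw [dop_mul y (fun σ => t x σ - spin (σ x)) (dop x u) σ, h2, dop_comm y x]
    by_cases h : x = y
    · subst h; simp only [dop_dop_self, if_true]; ring
    · simp [h]
  rw [h0, Finset.sum_congr rfl fun x _ => h1 x, Finset.sum_add_distrib]
  simp

lemma amgm_aux {a ρ r V Q : ℝ} (hr : 0 ≤ r) (hρ : 0 ≤ ρ) (h : a ^ 2 ≤ ρ * r) :
    2 * (V * a * Q) ≤ r * Q ^ 2 + ρ * V ^ 2 := by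
  rcases hr.eq_or_lt with h0 | h0
  · have : a = 0 := by
      rw [← h0] at h
      have : a ^ 2 = 0 := le_antisymm (by simpa using h) (sq_nonneg a)
      simpa using this
    rw [this, ← h0]; nlinarith [mul_nonneg hρ (sq_nonneg V)]
  · have h1 : 0 ≤ r * (r * Q ^ 2 + ρ * V ^ 2 - 2 * (V * a * Q)) := by
      nlinarith [sq_nonneg (r * Q - V * a), mul_nonneg (sq_nonneg V) (sub_nonneg.2 h)]
    have h2 := (mul_nonneg_iff_of_pos_left h0).1 h1
    linarith

/-- Hypotheses of the maximum principle. -/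
structure Hyp (t : ι → (ι → Bool) → ℝ) (ε : ι → ι → ℝ) (ω : ι → ℝ) (κ ρ₀ ρ₁ D g K : ℝ) :
    Prop where
  habs : ∀ x σ, |t x σ| ≤ 1
  hmain : ∀ x y σ, |dop y (t x) σ - κ * ε x y * (1 - t x σ ^ 2)| ≤ ρ₀ * ε x y ^ 2
  hsq : ∀ x y σ, dop y (t x) σ ^ 2 ≤ ρ₁ * ε x y ^ 2 * (1 - spin (σ x) * t x σ)
  hrow : ∀ x, ∑ y, ε x y ^ 2 ≤ D
  hcol : ∀ y, ∑ x, ε x y ^ 2 ≤ D
  hω : ∀ x, 0 < ω x
  hg : ∀ x y, ε x y ≠ 0 → ω y ≤ g * ω x
  hbil : ∀ p q : ι → ℝ, ∑ y, ∑ x, p y * ε x y * q x * (ω y / ω x)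
    ≤ K * g / 2 * (∑ y, p y ^ 2 + ∑ x, q x ^ 2)
  hκ : 0 ≤ κ
  hρ₀ : 0 ≤ ρ₀
  hρ₁ : 0 ≤ ρ₁
  hg0 : 0 ≤ g
  hK : 0 ≤ K

/-- The weighted square norm of the gradient. -/
noncomputable def phi (ω : ι → ℝ) (u : (ι → Bool) → ℝ) (σ : ι → Bool) : ℝ :=
  ∑ y, (ω y * dop y u σ) ^ 2

lemma phi_nonneg (ω : ι → ℝ) (u : (ι → Bool) → ℝ) (σ : ι → Bool) : 0 ≤ phi ω u σ :=
  Finset.sum_nonneg fun _ _ => sq_nonneg _

lemma at_max {t : ι → (ι → Bool) → ℝ} {ε : ι → ι → ℝ} {ω : ι → ℝ} {κ ρ₀ ρ₁ D g K : ℝ}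
    (H : Hyp t ε ω κ ρ₀ ρ₁ D g K) (u : (ι → Bool) → ℝ) (σ : ι → Bool)
    (hmax : ∀ σ', phi ω u σ' ≤ phi ω u σ) :
    phi ω u σ ≤ ∑ y, ω y ^ 2 * dop y u σ * (- dop y (gen t u) σ)
      + (κ * K * g + g * ρ₀ * D + ρ₁ * D) * phi ω u σ := by
  set V : ι → ℝ := fun y => dop y u σ with hV
  set Q : ι → ι → ℝ := fun x y => dop x (dop y u) σ with hQ
  set a : ι → ι → ℝ := fun x y => dop y (t x) σ with ha
  set s : ι → ℝ := fun x => spin (σ x) with hs
  set T : ι → ℝ := fun x => t x σ with hT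
  set r : ι → ℝ := fun x => 1 - s x * T x with hr
  set p : ι → ℝ := fun y => ω y * V y with hp
  set q : ι → ℝ := fun x => p x * (1 - T x ^ 2) with hq
  have hΦ : phi ω u σ = ∑ y, p y ^ 2 := rfl
  have hr0 : ∀ x, 0 ≤ r x := by
    intro x
    have h1 := abs_le.1 (H.habs x σ)
    rcases spin_cases (σ x) with h | h <;> simp only [hr, hs, hT, h] <;> linarith [h1.1, h1.2]
  -- the equation
  have heq : ∀ y, V y = - dop y (gen t u) σ + ∑ x, (a x y * V x + (T x - s x) * Q x y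
      - 2 * s y * a x y * Q x y) := by
    intro y
    have := dop_gen t u y σ
    simp only [hV, hQ, ha, hs, hT]
    linarith
  have hsum : phi ω u σ = ∑ y, ω y ^ 2 * V y * (- dop y (gen t u) σ)
      + ∑ y, ∑ x, ω y ^ 2 * V y * (a x y * V x + (T x - s x) * Q x y
        - 2 * s y * a x y * Q x y) := by
    rw [hΦ, ← Finset.sum_add_distrib]
    refine Finset.sum_congr rfl fun y _ => ?_
    rw [← Finset.mul_sum, ← mul_add, ← heq y]
    simp only [hp]; ring
  -- the maximum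
  have hflip : ∀ x, ∑ y, (ω y ^ 2 * V y * ((T x - s x) * Q x y) + ω y ^ 2 * (r x * Q x y ^ 2))
      ≤ 0 := by
    intro x
    have h1 := hmax (update σ x (!σ x))
    have h2 : phi ω u (update σ x (!σ x)) = ∑ y, (ω y * (V y - 2 * s x * Q x y)) ^ 2 := by
      unfold phi
      refine Finset.sum_congr rfl fun y _ => ?_
      rw [upd_flip x (dop y u) σ]
    have hss : s x * s x = 1 := spin_sq _
    have h3 : ∑ y, (ω y * (V y - 2 * s x * Q x y)) ^ 2 - ∑ y, p y ^ 2
        = 4 * ∑ y, ω y ^ 2 * (Q x y ^ 2 - s x * V y * Q x y) := by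
      rw [← Finset.sum_sub_distrib, Finset.mul_sum]
      refine Finset.sum_congr rfl fun y _ => ?_
      simp only [hp]
      linear_combination (4 * ω y ^ 2 * Q x y ^ 2) * hss
    have h4 : ∑ y, ω y ^ 2 * (Q x y ^ 2 - s x * V y * Q x y) ≤ 0 := by
      rw [h2, hΦ] at h1; linarith
    have h5 : ∑ y, (ω y ^ 2 * V y * ((T x - s x) * Q x y) + ω y ^ 2 * (r x * Q x y ^ 2))
        = r x * ∑ y, ω y ^ 2 * (Q x y ^ 2 - s x * V y * Q x y) := by
      rw [Finset.mul_sum]
      refine Finset.sum_congr rfl fun y _ => ?_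
      simp only [hr]
      linear_combination (- ω y ^ 2 * V y * Q x y * T x) * hss
    rw [h5]
    exact mul_nonpos_of_nonneg_of_nonpos (hr0 x) h4
  -- termwise bounds
  have hterm : ∀ x y, ω y ^ 2 * V y * (a x y * V x + (T x - s x) * Q x y
        - 2 * s y * a x y * Q x y)
      ≤ κ * (p y * ε x y * q x * (ω y / ω x))
        + g * ρ₀ / 2 * (ε x y ^ 2 * p y ^ 2 + ε x y ^ 2 * p x ^ 2)
        + ρ₁ * (ε x y ^ 2 * p y ^ 2)
        + (ω y ^ 2 * V y * ((T x - s x) * Q x y) + ω y ^ 2 * (r x * Q x y ^ 2)) := by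
    intro x y
    have hωx := H.hω x
    have hωy := H.hω y
    have e1 : ω y ^ 2 * V y * (a x y * V x)
        = κ * (p y * ε x y * q x * (ω y / ω x))
          + p y * p x * (ω y / ω x) * (a x y - κ * ε x y * (1 - T x ^ 2)) := by
      simp only [hp, hq]; field_simp; ring
    have e2 : p y * p x * (ω y / ω x) * (a x y - κ * ε x y * (1 - T x ^ 2))
        ≤ g * ρ₀ / 2 * (ε x y ^ 2 * p y ^ 2 + ε x y ^ 2 * p x ^ 2) := by
      have hm := H.hmain x y σ
      by_cases hε : ε x y = 0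
      · have : a x y - κ * ε x y * (1 - T x ^ 2) = 0 := by
          have h0 : |a x y - κ * ε x y * (1 - T x ^ 2)| ≤ 0 := by
            have := hm; rw [hε] at this ⊢; simpa using this
          exact abs_nonpos_iff.1 h0
        rw [this, hε]; simp
      · have hr1 : ω y / ω x ≤ g := by
          rw [div_le_iff₀ hωx]; exact H.hg x y hε
        have hr2 : 0 ≤ ω y / ω x := by positivity
        have h1 : |p y * p x| ≤ (p y ^ 2 + p x ^ 2) / 2 := by
          rw [abs_le]; constructor <;> nlinarith [sq_nonneg (p y + p x), sq_nonneg (p y - p x)]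
        have hρε : 0 ≤ ρ₀ * ε x y ^ 2 := mul_nonneg H.hρ₀ (sq_nonneg _)
        calc p y * p x * (ω y / ω x) * (a x y - κ * ε x y * (1 - T x ^ 2))
            ≤ |p y * p x * (ω y / ω x) * (a x y - κ * ε x y * (1 - T x ^ 2))| := le_abs_self _
          _ = |p y * p x| * (ω y / ω x) * |a x y - κ * ε x y * (1 - T x ^ 2)| := by
              rw [abs_mul, abs_mul (p y * p x), abs_of_nonneg hr2]
          _ ≤ (p y ^ 2 + p x ^ 2) / 2 * g * (ρ₀ * ε x y ^ 2) := by
              apply mul_le_mul _ hm (abs_nonneg _)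
              · exact mul_nonneg (by positivity) H.hg0
              · exact mul_le_mul h1 hr1 hr2 (by positivity)
          _ = _ := by ring
    have e3 : 2 * (V y * (- s y * a x y) * Q x y) ≤ r x * Q x y ^ 2 + ρ₁ * ε x y ^ 2 * V y ^ 2 := by
      apply amgm_aux (hr0 x) (mul_nonneg H.hρ₁ (sq_nonneg _))
      have hss : s y * s y = 1 := spin_sq _
      have : (- s y * a x y) ^ 2 = a x y ^ 2 := by linear_combination (a x y ^ 2) * hss
      rw [this]; exact H.hsq x y σ
    have e4 := mul_le_mul_of_nonneg_left e3 (sq_nonneg (ω y))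
    have e5 : ρ₁ * (ε x y ^ 2 * p y ^ 2) = ω y ^ 2 * (ρ₁ * ε x y ^ 2 * V y ^ 2) := by
      simp only [hp]; ring
    nlinarith [e1, e2, e4, e5]
  have hq2 : ∑ x, q x ^ 2 ≤ ∑ x, p x ^ 2 := by
    refine Finset.sum_le_sum fun x _ => ?_
    have h1 := abs_le.1 (H.habs x σ)
    have h2 : 0 ≤ 1 - T x ^ 2 := by simp only [hT]; nlinarith [h1.1, h1.2]
    have h3 : (1 - T x ^ 2) ^ 2 ≤ 1 := by nlinarith [sq_nonneg (T x)]
    simp only [hq, mul_pow]
    nlinarith [sq_nonneg (p x)]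
  have hA : ∑ y, ∑ x, ε x y ^ 2 * p y ^ 2 ≤ D * ∑ y, p y ^ 2 := by
    rw [Finset.mul_sum]
    refine Finset.sum_le_sum fun y _ => ?_
    rw [← Finset.sum_mul]
    exact mul_le_mul_of_nonneg_right (H.hcol y) (sq_nonneg _)
  have hB : ∑ y, ∑ x, ε x y ^ 2 * p x ^ 2 ≤ D * ∑ y, p y ^ 2 := by
    rw [Finset.sum_comm, Finset.mul_sum]
    refine Finset.sum_le_sum fun x _ => ?_
    rw [← Finset.sum_mul]
    exact mul_le_mul_of_nonneg_right (H.hrow x) (sq_nonneg _)
  have hC : ∑ y, ∑ x, (ω y ^ 2 * V y * ((T x - s x) * Q x y) + ω y ^ 2 * (r x * Q x y ^ 2))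
      ≤ 0 := by
    rw [Finset.sum_comm]
    exact Finset.sum_nonpos fun x _ => hflip x
  have hD := H.hbil p q
  have htot : ∑ y, ∑ x, ω y ^ 2 * V y * (a x y * V x + (T x - s x) * Q x y
        - 2 * s y * a x y * Q x y)
      ≤ κ * ∑ y, ∑ x, p y * ε x y * q x * (ω y / ω x)
        + g * ρ₀ / 2 * (∑ y, ∑ x, ε x y ^ 2 * p y ^ 2 + ∑ y, ∑ x, ε x y ^ 2 * p x ^ 2)
        + ρ₁ * ∑ y, ∑ x, ε x y ^ 2 * p y ^ 2
        + ∑ y, ∑ x, (ω y ^ 2 * V y * ((T x - s x) * Q x y) + ω y ^ 2 * (r x * Q x y ^ 2)) := by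
    simp only [Finset.mul_sum, ← Finset.sum_add_distrib]
    exact Finset.sum_le_sum fun y _ => Finset.sum_le_sum fun x _ => hterm x y
  have hP : 0 ≤ ∑ y, p y ^ 2 := Finset.sum_nonneg fun _ _ => sq_nonneg _
  have k1 : κ * ∑ y, ∑ x, p y * ε x y * q x * (ω y / ω x) ≤ κ * K * g * ∑ y, p y ^ 2 := by
    have h1 : K * g / 2 * (∑ y, p y ^ 2 + ∑ x, q x ^ 2) ≤ K * g * ∑ y, p y ^ 2 := by
      have := mul_nonneg H.hK H.hg0
      nlinarith
    have := mul_le_mul_of_nonneg_left (hD.trans h1) H.hκ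
    linarith
  have k2 : g * ρ₀ / 2 * (∑ y, ∑ x, ε x y ^ 2 * p y ^ 2 + ∑ y, ∑ x, ε x y ^ 2 * p x ^ 2)
      ≤ g * ρ₀ * D * ∑ y, p y ^ 2 := by
    have := mul_nonneg H.hg0 H.hρ₀
    nlinarith
  have k3 : ρ₁ * ∑ y, ∑ x, ε x y ^ 2 * p y ^ 2 ≤ ρ₁ * D * ∑ y, p y ^ 2 := by
    have := mul_le_mul_of_nonneg_left hA H.hρ₁
    linarith
  rw [hΦ] at hsum ⊢
  nlinarith [hsum, htot, k1, k2, k3, hC]

/-- A priori bound for solutions of the Poisson equation. -/
lemma apriori {t : ι → (ι → Bool) → ℝ} {ε : ι → ι → ℝ} {ω : ι → ℝ} {κ ρ₀ ρ₁ D g K L : ℝ}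
    (H : Hyp t ε ω κ ρ₀ ρ₁ D g K) (hL : κ * K * g + g * ρ₀ * D + ρ₁ * D ≤ L) (hL1 : L < 1)
    (x₀ : ι) (hx₀ : ω x₀ = 1) (c c' : ℝ) (u : (ι → Bool) → ℝ)
    (hu : ∀ σ, gen t u σ = c' - c * spin (σ x₀)) (σ : ι → Bool) :
    phi ω u σ ≤ c ^ 2 / (1 - L) ^ 2 := by
  obtain ⟨σ₀, hσ₀⟩ := Finite.exists_max (phi ω u)
  have h1 := at_max H u σ₀ hσ₀
  have h2 : ∀ y, - dop y (gen t u) σ₀ = if x₀ = y then c else 0 := by
    intro y
    have h3 := dop_spin x₀ y σ₀
    simp only [dop, hu] at h3 ⊢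
    split_ifs at h3 ⊢ with h
    · linear_combination c * h3
    · linear_combination c * h3
  have h3 : ∑ y, ω y ^ 2 * dop y u σ₀ * (- dop y (gen t u) σ₀) = c * dop x₀ u σ₀ := by
    simp only [h2, mul_ite, mul_zero, Finset.sum_ite_eq, Finset.mem_univ, if_true, hx₀]
    ring
  have h4 : (dop x₀ u σ₀) ^ 2 ≤ phi ω u σ₀ := by
    have := Finset.single_le_sum (f := fun y => (ω y * dop y u σ₀) ^ 2)
      (fun y _ => sq_nonneg _) (Finset.mem_univ x₀)
    simpa [hx₀, phi] using this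
  have hP := phi_nonneg ω u σ₀
  have h5 : (1 - L) * phi ω u σ₀ ≤ c * dop x₀ u σ₀ := by
    rw [h3] at h1
    nlinarith [mul_le_mul_of_nonneg_right hL hP]
  have hpos : 0 < 1 - L := by linarith
  refine (hσ₀ σ).trans ?_
  rw [le_div_iff₀ (by positivity)]
  rcases hP.eq_or_lt with h0 | h0
  · rw [← h0]; simpa using sq_nonneg c
  · have h6 : ((1 - L) * phi ω u σ₀) ^ 2 ≤ (c * dop x₀ u σ₀) ^ 2 :=
      pow_le_pow_left₀ (by positivity) h5 2
    have h7 : (c * dop x₀ u σ₀) ^ 2 ≤ c ^ 2 * phi ω u σ₀ := by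
      rw [mul_pow]; exact mul_le_mul_of_nonneg_left h4 (sq_nonneg c)
    have h8 : phi ω u σ₀ * (phi ω u σ₀ * (1 - L) ^ 2) ≤ phi ω u σ₀ * c ^ 2 := by nlinarith
    exact le_of_mul_le_mul_left h8 h0

lemma const_of_dop_eq_zero (u : (ι → Bool) → ℝ) (h : ∀ y σ, dop y u σ = 0) (σ σ' : ι → Bool) :
    u σ = u σ' := by
  have key : ∀ S : Finset ι, ∀ σ σ' : ι → Bool, (∀ x, x ∉ S → σ x = σ' x) → u σ = u σ' := by
    intro S
    induction S using Finset.induction_on with
    | empty => intro σ σ' h1; congr 1; funext x; exact h1 x (by simp)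
    | insert x S hx ih =>
      intro σ σ' h1
      have h2 : u (update σ x (σ' x)) = u σ := by
        cases σ' x
        · rw [upd_false x u σ, h]; ring
        · rw [upd_true x u σ, h]; ring
      rw [← h2]
      apply ih
      intro y hy
      by_cases hyx : y = x
      · subst hyx; simp
      · rw [update_of_ne hyx]; exact h1 y (by simp [hyx, hy])
  exact key Finset.univ σ σ' (by simp)

/-- `m` is a probability vector whose conditional means are `t`. -/
structure Stat (t : ι → (ι → Bool) → ℝ) (m : (ι → Bool) → ℝ) : Prop where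
  nonneg : ∀ σ, 0 ≤ m σ
  total : ∑ σ, m σ = 1
  stat : ∀ (x : ι) (G : (ι → Bool) → ℝ), (∀ σ b, G (update σ x b) = G σ) →
    ∑ σ, m σ * ((t x σ - spin (σ x)) * G σ) = 0

lemma Stat.gen_zero {t : ι → (ι → Bool) → ℝ} {m : (ι → Bool) → ℝ} (h : Stat t m)
    (u : (ι → Bool) → ℝ) : ∑ σ, m σ * gen t u σ = 0 := by
  simp only [gen, Finset.mul_sum]
  rw [Finset.sum_comm]
  exact Finset.sum_eq_zero fun x _ => h.stat x (dop x u) fun σ b => dop_update x u σ b

lemma poisson {t : ι → (ι → Bool) → ℝ} {ε : ι → ι → ℝ} {ω : ι → ℝ} {κ ρ₀ ρ₁ D g K L : ℝ}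
    (H : Hyp t ε ω κ ρ₀ ρ₁ D g K) (hL : κ * K * g + g * ρ₀ * D + ρ₁ * D ≤ L) (hL1 : L < 1)
    (x₀ : ι) (hx₀ : ω x₀ = 1) {m : (ι → Bool) → ℝ} (hm : Stat t m) :
    ∃ u : (ι → Bool) → ℝ, ∀ σ, gen t u σ = ∑ σ', m σ' * spin (σ' x₀) - 1 * spin (σ x₀) := by
  let T : ((ι → Bool) → ℝ) →ₗ[ℝ] ((ι → Bool) → ℝ) :=
    { toFun := fun u σ => ∑ σ', m σ' * u σ' - gen t u σ
      map_add' := by
        intro u v; funext σ
        simp only [gen, dop, Pi.add_apply, mul_add, Finset.sum_add_distrib]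
        have : ∀ x, (t x σ - spin (σ x)) * ((u (update σ x true) + v (update σ x true)
            - (u (update σ x false) + v (update σ x false))) / 2)
            = (t x σ - spin (σ x)) * ((u (update σ x true) - u (update σ x false)) / 2)
              + (t x σ - spin (σ x)) * ((v (update σ x true) - v (update σ x false)) / 2) := by
          intro x; ring
        simp only [this, Finset.sum_add_distrib]; ring
      map_smul' := by
        intro c u; funext σ
        simp only [gen, dop, Pi.smul_apply, smul_eq_mul, RingHom.id_apply, mul_sub c,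
          Finset.mul_sum]
        congr 1
        · exact Finset.sum_congr rfl fun _ _ => by ring
        · exact Finset.sum_congr rfl fun _ _ => by ring }
  have hT : ∀ u σ, T u σ = ∑ σ', m σ' * u σ' - gen t u σ := fun _ _ => rfl
  have hmean : ∀ u, ∑ σ, m σ * T u σ = ∑ σ', m σ' * u σ' := by
    intro u
    simp only [hT, mul_sub, Finset.sum_sub_distrib, hm.gen_zero, ← Finset.sum_mul, hm.total]
    ring
  have hinj : Function.Injective T := by
    rw [injective_iff_map_eq_zero]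
    intro u hu
    have h1 : ∑ σ', m σ' * u σ' = 0 := by rw [← hmean u, hu]; simp
    have h2 : ∀ σ, gen t u σ = 0 - 0 * spin (σ x₀) := by
      intro σ
      have := congrFun hu σ
      rw [hT, h1] at this
      simp only [Pi.zero_apply] at this
      linarith
    have h3 : ∀ y σ, dop y u σ = 0 := by
      intro y σ
      have h4 := apriori H hL hL1 x₀ hx₀ 0 0 u h2 σ
      have h5 := Finset.single_le_sum (f := fun y => (ω y * dop y u σ) ^ 2)
        (fun y _ => sq_nonneg _) (Finset.mem_univ y)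
      have h6 : (ω y * dop y u σ) ^ 2 ≤ 0 := by
        have : phi ω u σ ≤ 0 := by simpa using h4
        exact h5.trans this
      have h7 : ω y * dop y u σ = 0 := by
        have : (ω y * dop y u σ) ^ 2 = 0 := le_antisymm h6 (sq_nonneg _)
        exact pow_eq_zero_iff (two_ne_zero) |>.1 this
      exact (mul_eq_zero.1 h7).resolve_left (H.hω y).ne'
    funext σ
    have h4 : ∑ σ', m σ' * u σ' = u σ := by
      rw [Finset.sum_congr rfl fun σ' _ => by rw [const_of_dop_eq_zero u h3 σ' σ],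
        ← Finset.sum_mul, hm.total, one_mul]
    rw [← h4, h1]; rfl
  obtain ⟨u, hu⟩ := (LinearMap.injective_iff_surjective.1 hinj) fun σ => spin (σ x₀)
  refine ⟨u, fun σ => ?_⟩
  have h1 := hmean u
  have h2 := congrFun hu σ
  rw [hu] at h1
  rw [hT] at h2
  linarith

/-- Comparison of the magnetisation at `x₀` under two stationary vectors. -/
lemma compare {t t' : ι → (ι → Bool) → ℝ} {ε : ι → ι → ℝ} {ω : ι → ℝ} {κ ρ₀ ρ₁ D g K L : ℝ}
    (H : Hyp t ε ω κ ρ₀ ρ₁ D g K) (hL : κ * K * g + g * ρ₀ * D + ρ₁ * D ≤ L) (hL1 : L < 1)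
    (x₀ : ι) (hx₀ : ω x₀ = 1) {m m' : (ι → Bool) → ℝ} (hm : Stat t m) (hm' : Stat t' m')
    (ht' : ∀ x σ, |t' x σ| ≤ 1) (S : Finset ι) (hS : ∀ x, x ∉ S → ∀ σ, t' x σ = t x σ)
    {w M : ℝ} (hw : 0 < w) (hM : 0 < M) (hSw : ∀ x ∈ S, w ≤ ω x) :
    |∑ σ, m' σ * spin (σ x₀) - ∑ σ, m σ * spin (σ x₀)|
      ≤ (M / (1 - L) ^ 2 + S.card / M) / w := by
  obtain ⟨u, hu⟩ := poisson H hL hL1 x₀ hx₀ hm
  have hphi := apriori H hL hL1 x₀ hx₀ 1 _ u hu
  have h1 : ∑ σ, m' σ * spin (σ x₀) - ∑ σ, m σ * spin (σ x₀)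
      = ∑ σ, m' σ * (gen t' u σ - gen t u σ) := by
    simp only [mul_sub, Finset.sum_sub_distrib, hm'.gen_zero, hu, ← Finset.sum_mul, hm'.total]
    simp
  have h2 : ∀ σ, |gen t' u σ - gen t u σ| ≤ (M / (1 - L) ^ 2 + S.card / M) / w := by
    intro σ
    have e1 : gen t' u σ - gen t u σ = ∑ x ∈ S, (t' x σ - t x σ) * dop x u σ := by
      unfold gen
      rw [← Finset.sum_sub_distrib]
      symm
      apply Finset.sum_subset_zero_on_sdiff (Finset.subset_univ S)
      · intro x hx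
        rw [hS x (Finset.mem_sdiff.1 hx).2 σ]; ring
      · intro x _; ring
    have e2 : ∀ x ∈ S, |(t' x σ - t x σ) * dop x u σ|
        ≤ (M * (ω x * dop x u σ) ^ 2 + 1 / M) / w := by
      intro x hx
      have a1 : |t' x σ - t x σ| ≤ 2 := by
        have := abs_sub (t' x σ) (t x σ)
        linarith [ht' x σ, H.habs x σ]
      have a2 : w * |dop x u σ| ≤ |ω x * dop x u σ| := by
        rw [abs_mul, abs_of_pos (H.hω x)]
        exact mul_le_mul_of_nonneg_right (hSw x hx) (abs_nonneg _)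
      have a3 : 2 * |ω x * dop x u σ| ≤ M * (ω x * dop x u σ) ^ 2 + 1 / M := by
        rw [← sq_abs (ω x * dop x u σ)]
        have : 0 ≤ (M * |ω x * dop x u σ| - 1) ^ 2 / M := by positivity
        have e : (M * |ω x * dop x u σ| - 1) ^ 2 / M
            = M * |ω x * dop x u σ| ^ 2 + 1 / M - 2 * |ω x * dop x u σ| := by
          field_simp; ring
        linarith
      rw [le_div_iff₀ hw, abs_mul]
      nlinarith [abs_nonneg (dop x u σ), mul_le_mul_of_nonneg_right a1
        (mul_nonneg hw.le (abs_nonneg (dop x u σ)))]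
    have e3 : ∑ x ∈ S, (ω x * dop x u σ) ^ 2 ≤ 1 / (1 - L) ^ 2 := by
      have := hphi σ
      rw [one_pow] at this
      refine le_trans ?_ this
      exact Finset.sum_le_sum_of_subset_of_nonneg (Finset.subset_univ S) fun _ _ _ => sq_nonneg _
    rw [e1]
    refine (Finset.abs_sum_le_sum_abs _ _).trans ((Finset.sum_le_sum e2).trans ?_)
    rw [← Finset.sum_div, Finset.sum_add_distrib, ← Finset.mul_sum]
    apply div_le_div_of_nonneg_right _ hw.le
    have := mul_le_mul_of_nonneg_left e3 hM.le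
    simp only [Finset.sum_const, nsmul_eq_mul]
    rw [mul_one_div] at this
    rw [mul_one_div]
    linarith
  rw [h1]
  refine (Finset.abs_sum_le_sum_abs _ _).trans ?_
  calc ∑ σ, |m' σ * (gen t' u σ - gen t u σ)|
      ≤ ∑ σ, m' σ * ((M / (1 - L) ^ 2 + S.card / M) / w) := by
        refine Finset.sum_le_sum fun σ _ => ?_
        rw [abs_mul, abs_of_nonneg (hm'.nonneg σ)]
        exact mul_le_mul_of_nonneg_left (h2 σ) (hm'.nonneg σ)
    _ = _ := by rw [← Finset.sum_mul, hm'.total, one_mul]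

end Pool.Agent.P.MP_81d17b_pr
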