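import Pool.Agent.P.MP_81d17b_pr.Gam
import Pool.Agent.P.MP_81d17b_pr.Stein
import Pool.Agent.P.MP_81d17b_pr.Lattice

/-! The expected trace of an even power of the random sign matrix on a finite set of sites. -/

namespace Pool.Agent.P.MP_81d17b_pr

open Finset

variable {d : ℕ}

/-- The signed adjacency kernel. -/
noncomputable def cpl (s : Edge d → Bool) (x y : Site d) : ℝ :=
  ∑ k : Dir d, if nbr x k = y then spin (s (edg x k)) else 0

lemma cpl_nbr (s : Edge d → Bool) (x : Site d) (k : Dir d) :
    cpl s x (nbr x k) = spin (s (edg x k)) := by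
  unfold cpl
  simp only [(nbr_injective x).eq_iff, Finset.sum_ite_eq', Finset.mem_univ, if_true]

lemma cpl_eq_zero (s : Edge d → Bool) {x y : Site d} (h : ∀ k, nbr x k ≠ y) : cpl s x y = 0 :=
  Finset.sum_eq_zero fun k _ => if_neg (h k)

lemma exists_nbr_of_cpl_ne {s : Edge d → Bool} {x y : Site d} (h : cpl s x y ≠ 0) :
    ∃ k, nbr x k = y := by
  by_contra hc
  exact h (cpl_eq_zero s fun k hk => hc ⟨k, hk⟩)

lemma cpl_symm (s : Edge d → Bool) (x y : Site d) : cpl s x y = cpl s y x := by
  by_cases h : ∃ k, nbr x k = y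
  · obtain ⟨k, rfl⟩ := h
    rw [cpl_nbr]
    conv_rhs => rw [← nbr_nbr_rev x k]
    rw [nbr_nbr_rev x k, ← edg_nbr_rev x k, ← cpl_nbr, nbr_nbr_rev]
  · rw [cpl_eq_zero s fun k hk => h ⟨k, hk⟩, cpl_eq_zero]
    rintro k rfl
    exact h ⟨rev k, nbr_nbr_rev y k⟩

lemma cpl_self (s : Edge d → Bool) (x : Site d) : cpl s x x = 0 :=
  cpl_eq_zero s fun k => nbr_ne x k

lemma cpl_cases (s : Edge d → Bool) (x y : Site d) :
    cpl s x y = 0 ∨ cpl s x y = 1 ∨ cpl s x y = -1 := by
  by_cases h : ∃ k, nbr x k = y
  · obtain ⟨k, rfl⟩ := h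
    rw [cpl_nbr]; right; exact spin_cases _
  · left; exact cpl_eq_zero s fun k hk => h ⟨k, hk⟩

lemma sum_cpl_mul (s : Edge d → Bool) (B : Finset (Site d)) (x : Site d) (F : Site d → ℝ) :
    ∑ y ∈ B, cpl s x y * F y
      = ∑ k : Dir d, if nbr x k ∈ B then spin (s (edg x k)) * F (nbr x k) else 0 := by
  unfold cpl
  simp only [Finset.sum_mul]
  rw [Finset.sum_comm]
  refine Finset.sum_congr rfl fun k _ => ?_
  simp only [ite_mul, zero_mul, Finset.sum_ite_eq]

lemma sum_cpl_sq_le (s : Edge d → Bool) (B : Finset (Site d)) (x : Site d) :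
    ∑ y ∈ B, cpl s x y ^ 2 ≤ 2 * d := by
  simp only [sq]
  rw [sum_cpl_mul]
  calc _ ≤ ∑ _k : Dir d, (1 : ℝ) := by
        refine Finset.sum_le_sum fun k _ => ?_
        split_ifs
        · rw [cpl_nbr, spin_sq]
        · exact zero_le_one
    _ = 2 * d := by simp [mul_comm]

/-- The signed adjacency matrix of `B`. -/
noncomputable def mat (s : Edge d → Bool) (B : Finset (Site d)) : Matrix B B ℝ :=
  Matrix.of fun x y => cpl s x y

/-- Edges with both endpoints in `B`. -/
def edgesIn (B : Finset (Site d)) : Finset (Edge d) :=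
  (B ×ˢ Finset.univ).filter fun e => tip e ∈ B

lemma mem_edgesIn {B : Finset (Site d)} {e : Edge d} : e ∈ edgesIn B ↔ e.1 ∈ B ∧ tip e ∈ B := by
  simp [edgesIn]

lemma edg_mem_edgesIn {B : Finset (Site d)} {x : Site d} {k : Dir d} (hx : x ∈ B)
    (hk : nbr x k ∈ B) : edg x k ∈ edgesIn B := by
  rw [mem_edgesIn]
  rcases edg_ends x k with ⟨h1, h2⟩ | ⟨h1, h2⟩ <;> rw [h1, h2] <;> constructor <;> assumption

lemma mat_congr {B : Finset (Site d)} {s s' : Edge d → Bool}
    (h : ∀ e ∈ edgesIn B, s e = s' e) : mat s B = mat s' B := by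
  ext x y
  simp only [mat, Matrix.of_apply, cpl]
  refine Finset.sum_congr rfl fun k _ => ?_
  split_ifs with hk
  · rw [h _ (edg_mem_edgesIn x.2 (hk ▸ y.2))]
  · rfl

/-- Toggle the membership of an edge. -/
def toggle (O : Finset (Edge d)) (e : Edge d) : Finset (Edge d) :=
  if e ∈ O then O.erase e else insert e O

/-- The character of a set of edges. -/
noncomputable def chi (O : Finset (Edge d)) (s : Edge d → Bool) : ℝ := ∏ e ∈ O, spin (s e)

lemma chi_toggle (O : Finset (Edge d)) (e : Edge d) (s : Edge d → Bool) :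
    chi (toggle O e) s = chi O s * spin (s e) := by
  unfold toggle chi
  split_ifs with h
  · rw [← Finset.mul_prod_erase O _ h]
    have := spin_sq (s e)
    linear_combination (-∏ x ∈ O.erase e, spin (s x)) * this
  · rw [Finset.prod_insert h]; ring

lemma avg_chi {O E : Finset (Edge d)} (hO : O ⊆ E) :
    avg E (chi O) = if O = ∅ then 1 else 0 := by
  split_ifs with h
  · subst h
    exact gam_const one_pos' E _ 1
  · obtain ⟨e, he⟩ := Finset.nonempty_iff_ne_empty.2 h
    have h1 := sum_confs_flip (hO he) (fun _ => true) (chi O)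
    have h2 : ∀ s : Edge d → Bool, chi O (Function.update s e (!s e)) = - chi O s := by
      intro s
      unfold chi
      rw [← Finset.mul_prod_erase O _ he, ← Finset.mul_prod_erase O _ he]
      have : ∏ x ∈ O.erase e, spin (Function.update s e (!s e) x) = ∏ x ∈ O.erase e, spin (s x) :=
        Finset.prod_congr rfl fun x hx => by rw [Function.update_of_ne (Finset.mem_erase.1 hx).1]
      rw [this, Function.update_self]
      cases s e <;> simp [spin]
    simp only [h2, Finset.sum_neg_distrib] at h1
    have h3 : ∑ σ ∈ confs E (fun _ => true), chi O σ = 0 := by linarith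
    unfold avg gam
    simp only [one_mul, h3, zero_div]

/-- The number of walks of `n` steps in `B` from `v` to `r` whose odd edges form the set `O`. -/
noncomputable def cnt (B : Finset (Site d)) (r : Site d) : ℕ → Site d → Finset (Edge d) → ℝ
  | 0, v, O => if v = r ∧ O = ∅ then 1 else 0
  | n + 1, v, O => ∑ k : Dir d,
      if nbr v k ∈ B then cnt B r n (nbr v k) (toggle O (edg v k)) else 0

lemma toggle_subset {O E : Finset (Edge d)} {e : Edge d} (hO : O ⊆ E) (he : e ∈ E) :
    toggle O e ⊆ E := by
  unfold toggle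
  split_ifs
  · exact (Finset.erase_subset _ _).trans hO
  · exact Finset.insert_subset he hO

lemma avg_chi_mat {B : Finset (Site d)} {E : Finset (Edge d)} (hE : edgesIn B ⊆ E) (r : B)
    (n : ℕ) : ∀ (v : B) (O : Finset (Edge d)), O ⊆ E →
      avg E (fun s => chi O s * (mat s B ^ n) v r) = cnt B r n v O := by
  induction n with
  | zero =>
    intro v O hO
    simp only [pow_zero, Matrix.one_apply, cnt]
    by_cases h : v = r
    · subst h
      simp only [if_true, mul_one, true_and]
      exact avg_chi hO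
    · have : (v : Site d) ≠ r := fun h' => h (Subtype.ext h')
      simp only [h, if_false, mul_zero, this, false_and]
      exact gam_const one_pos' E _ 0
  | succ n ih =>
    intro v O hO
    have h1 : ∀ s : Edge d → Bool, chi O s * (mat s B ^ (n + 1)) v r
        = ∑ k : Dir d, if h : nbr v k ∈ B then
            chi (toggle O (edg v k)) s * (mat s B ^ n) ⟨nbr v k, h⟩ r else 0 := by
      intro s
      let F : Site d → ℝ := fun y => if h : y ∈ B then (mat s B ^ n) ⟨y, h⟩ r else 0
      have e1 : (mat s B ^ (n + 1)) v r = ∑ y ∈ B, cpl s v y * F y := by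
        rw [pow_succ', Matrix.mul_apply, ← Finset.sum_coe_sort B]
        refine Finset.sum_congr rfl fun y _ => ?_
        simp only [mat, Matrix.of_apply, F, y.2, dif_pos]
      rw [e1, sum_cpl_mul, Finset.mul_sum]
      refine Finset.sum_congr rfl fun k _ => ?_
      by_cases h : nbr v k ∈ B
      · simp only [h, if_true, dif_pos, F, chi_toggle]; ring
      · simp [h]
    simp only [h1, cnt]
    unfold avg
    rw [gam_sum]
    refine Finset.sum_congr rfl fun k _ => ?_
    by_cases h : nbr v k ∈ B
    · simp only [h, dif_pos, if_true]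
      exact ih ⟨nbr v k, h⟩ _ (toggle_subset hO (hE (edg_mem_edgesIn v.2 h)))
    · simp only [h, dif_neg, not_false_eq_true, if_false]
      exact gam_const one_pos' E _ 0

lemma card_toggle (O : Finset (Edge d)) (e : Edge d) :
    (e ∈ O ∧ (toggle O e).card + 1 = O.card) ∨ (e ∉ O ∧ (toggle O e).card = O.card + 1) := by
  unfold toggle
  by_cases h : e ∈ O
  · left; rw [if_pos h]; exact ⟨h, Finset.card_erase_add_one h⟩
  · right; rw [if_neg h]; exact ⟨h, Finset.card_insert_of_notMem h⟩

lemma cnt_eq_zero (B : Finset (Site d)) (r : Site d) (n : ℕ) :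
    ∀ (v : Site d) (O : Finset (Edge d)), n < O.card → cnt B r n v O = 0 := by
  induction n with
  | zero =>
    intro v O h
    have : O ≠ ∅ := by rintro rfl; simp at h
    simp [cnt, this]
  | succ n ih =>
    intro v O h
    simp only [cnt]
    refine Finset.sum_eq_zero fun k _ => ?_
    split_ifs
    · apply ih
      rcases card_toggle O (edg v k) with h1 | h1 <;> omega
    · rfl

/-- `df j = (j - 1)!!`. -/
def df : ℕ → ℕ
  | 0 => 1
  | 1 => 1
  | j + 2 => (j + 1) * df j

/-- The number of edges of `O` at `u`. -/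
def deg (O : Finset (Edge d)) (u : Site d) : ℕ :=
  (Finset.univ.filter fun k : Dir d => edg u k ∈ O).card

lemma mem_toggle {O : Finset (Edge d)} {e e' : Edge d} (h : e' ≠ e) :
    e' ∈ toggle O e ↔ e' ∈ O := by
  unfold toggle; split_ifs <;> simp [h]

lemma deg_toggle_of_ne (O : Finset (Edge d)) {v w : Site d} {k : Dir d} (h1 : w ≠ v)
    (h2 : w ≠ nbr v k) : deg (toggle O (edg v k)) w = deg O w := by
  unfold deg
  congr 1
  refine Finset.filter_congr fun k' _ => mem_toggle fun h => ?_
  rcases edg_eq h with h | h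
  · exact h1 h.1
  · exact h2 h.1

lemma deg_toggle_mem {O : Finset (Edge d)} {v : Site d} {k : Dir d} (h : edg v k ∈ O) :
    deg (toggle O (edg v k)) v + 1 = deg O v := by
  unfold deg
  have : (Finset.univ.filter fun k' : Dir d => edg v k' ∈ toggle O (edg v k))
      = (Finset.univ.filter fun k' : Dir d => edg v k' ∈ O).erase k := by
    ext k'
    simp only [toggle, h, if_true, Finset.mem_filter, Finset.mem_univ, true_and, Finset.mem_erase,
      ne_eq, (edg_injective v).eq_iff]
  rw [this]
  exact Finset.card_erase_add_one (by simpa using h)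

lemma deg_toggle_notMem {O : Finset (Edge d)} {v : Site d} {k : Dir d} (h : edg v k ∉ O) :
    deg (toggle O (edg v k)) v = deg O v + 1 := by
  unfold deg
  have : (Finset.univ.filter fun k' : Dir d => edg v k' ∈ toggle O (edg v k))
      = insert k (Finset.univ.filter fun k' : Dir d => edg v k' ∈ O) := by
    ext k'
    simp only [toggle, h, if_false, Finset.mem_filter, Finset.mem_univ, true_and,
      Finset.mem_insert, (edg_injective v).eq_iff]
  rw [this]
  exact Finset.card_insert_of_notMem (by simpa using h)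

lemma sum_deg_nbr_le (O : Finset (Edge d)) (v : Site d) :
    ∑ k : Dir d, deg O (nbr v k) ≤ O.card := by
  unfold deg
  rw [← Finset.card_sigma]
  refine Finset.card_le_card_of_injOn (fun p => edg (nbr v p.1) p.2) ?_ ?_
  · intro p hp
    simpa using hp
  · rintro ⟨k₁, k₁'⟩ _ ⟨k₂, k₂'⟩ _ h
    rcases edg_eq h with h | h
    · have := nbr_injective v h.1
      obtain ⟨-, h2⟩ := h
      simp only at this h2
      subst this; subst h2; rfl
    · exact absurd h.1.symm (nbr_nbr_ne v k₂ k₂' k₁)

/-- The potential. -/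
def pot (B : Finset (Site d)) (v : Site d) (O : Finset (Edge d)) : ℕ :=
  df (deg O v + 1) * ∏ w ∈ B.erase v, df (deg O w)

lemma pot_step {B : Finset (Site d)} {v : Site d} {k : Dir d} (hv : v ∈ B) (hk : nbr v k ∈ B)
    (O : Finset (Edge d)) :
    ∃ c : ℕ, pot B v O = df (deg O v + 1) * df (deg O (nbr v k)) * c ∧
      pot B (nbr v k) (toggle O (edg v k))
        = df (deg (toggle O (edg v k)) (nbr v k) + 1) * df (deg (toggle O (edg v k)) v) * c := by
  refine ⟨∏ w ∈ (B.erase v).erase (nbr v k), df (deg O w), ?_, ?_⟩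
  · unfold pot
    rw [← Finset.mul_prod_erase (B.erase v) _ (Finset.mem_erase.2 ⟨nbr_ne v k, hk⟩), mul_assoc]
  · unfold pot
    rw [← Finset.mul_prod_erase (B.erase (nbr v k)) _
      (Finset.mem_erase.2 ⟨(nbr_ne v k).symm, hv⟩), mul_assoc, Finset.erase_right_comm]
    congr 2
    refine Finset.prod_congr rfl fun w hw => ?_
    rw [Finset.mem_erase, Finset.mem_erase] at hw
    rw [deg_toggle_of_ne O hw.2.1 hw.1]

lemma pot_close {B : Finset (Site d)} {v : Site d} {k : Dir d} (hv : v ∈ B) (hk : nbr v k ∈ B)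
    {O : Finset (Edge d)} (h : edg v k ∈ O) :
    deg O v * pot B (nbr v k) (toggle O (edg v k)) = pot B v O := by
  obtain ⟨c, h1, h2⟩ := pot_step hv hk O
  have a1 := deg_toggle_mem h
  have a2 := deg_toggle_mem (v := nbr v k) (k := rev k) (O := O) (by rwa [edg_nbr_rev])
  rw [edg_nbr_rev] at a2
  rw [h1, h2, a2, ← a1]
  simp only [df]
  ring

lemma pot_open {B : Finset (Site d)} {v : Site d} {k : Dir d} (hv : v ∈ B) (hk : nbr v k ∈ B)
    {O : Finset (Edge d)} (h : edg v k ∉ O) :
    pot B (nbr v k) (toggle O (edg v k)) = (deg O (nbr v k) + 1) * pot B v O := by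
  obtain ⟨c, h1, h2⟩ := pot_step hv hk O
  have a1 := deg_toggle_notMem h
  have a2 := deg_toggle_notMem (v := nbr v k) (k := rev k) (O := O) (by rwa [edg_nbr_rev])
  rw [edg_nbr_rev] at a2
  rw [h1, h2, a2, a1]
  simp only [df]
  ring

lemma cnt_le (B : Finset (Site d)) (r : Site d) (p : ℕ) {q : ℝ} (hq : 0 < q)
    (hQ : 2 * d + p ≤ q ^ 2) (n : ℕ) :
    ∀ (v : Site d) (O : Finset (Edge d)), v ∈ B → O.card + n ≤ 2 * p →
      cnt B r n v O * q ^ O.card ≤ (2 * q) ^ n * pot B v O := by
  induction n with
  | zero =>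
    intro v O _ _
    simp only [cnt]
    split_ifs with h
    · obtain ⟨-, rfl⟩ := h
      simp [pot, deg, df]
    · simp
  | succ n ih =>
    intro v O hv hO
    by_cases hc : n + 1 < O.card
    · rw [cnt_eq_zero B r _ v O hc, zero_mul]; positivity
    have hOp : O.card ≤ p := by omega
    set P : ℝ := (pot B v O : ℝ) with hP
    have hP0 : 0 ≤ P := Nat.cast_nonneg _
    have hterm : ∀ k : Dir d,
        (if nbr v k ∈ B then cnt B r n (nbr v k) (toggle O (edg v k)) else 0) * q ^ O.card
        ≤ (2 * q) ^ n * P * ((if edg v k ∈ O then q / deg O v else 0)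
          + (deg O (nbr v k) + 1) / q) := by
      intro k
      have hnn : 0 ≤ ((deg O (nbr v k) : ℝ) + 1) / q := by positivity
      have hnn2 : 0 ≤ (if edg v k ∈ O then q / deg O v else 0) := by
        split_ifs <;> positivity
      by_cases hk : nbr v k ∈ B
      swap
      · rw [if_neg hk, zero_mul]; positivity
      rw [if_pos hk]
      rcases card_toggle O (edg v k) with ⟨h1, h2⟩ | ⟨h1, h2⟩
      · have h3 := ih (nbr v k) (toggle O (edg v k)) hk (by omega)
        have h4 : (deg O v : ℝ) * pot B (nbr v k) (toggle O (edg v k)) = P := by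
          rw [hP]; exact_mod_cast pot_close hv hk h1
        have h5 : 0 < deg O v := by have := deg_toggle_mem h1; omega
        have h5' : (0 : ℝ) < deg O v := by exact_mod_cast h5
        have h6 : (pot B (nbr v k) (toggle O (edg v k)) : ℝ) = P / deg O v := by
          rw [← h4]; field_simp
        rw [if_pos h1, ← h2, pow_succ, ← mul_assoc]
        rw [h6] at h3
        calc _ ≤ (2 * q) ^ n * (P / deg O v) * q := mul_le_mul_of_nonneg_right h3 hq.le
          _ = (2 * q) ^ n * P * (q / deg O v) := by ring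
          _ ≤ _ := by
            apply mul_le_mul_of_nonneg_left _ (by positivity)
            linarith
      · have h3 := ih (nbr v k) (toggle O (edg v k)) hk (by omega)
        have h4 : (pot B (nbr v k) (toggle O (edg v k)) : ℝ) = (deg O (nbr v k) + 1) * P := by
          rw [hP]; exact_mod_cast pot_open hv hk h1
        rw [h2, h4, pow_succ, ← mul_assoc] at h3
        rw [if_neg h1, zero_add, ← mul_div_assoc, le_div_iff₀ hq]
        linarith
    have hsum1 : ∑ k : Dir d, (if edg v k ∈ O then q / deg O v else 0) ≤ q := by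
      rw [← Finset.sum_filter, Finset.sum_const, nsmul_eq_mul]
      change (deg O v : ℝ) * (q / deg O v) ≤ q
      rcases Nat.eq_zero_or_pos (deg O v) with h0 | h0
      · rw [h0]; simpa using hq.le
      · have : (0 : ℝ) < deg O v := by exact_mod_cast h0
        rw [mul_div_cancel₀ _ this.ne']
    have hsum2 : ∑ k : Dir d, ((deg O (nbr v k) : ℝ) + 1) / q ≤ q := by
      rw [← Finset.sum_div, div_le_iff₀ hq, Finset.sum_add_distrib]
      have h1 : ((∑ k : Dir d, deg O (nbr v k) : ℕ) : ℝ) ≤ p := by
        exact_mod_cast (sum_deg_nbr_le O v).trans hOp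
      push_cast at h1
      have h2 : ∑ _k : Dir d, (1 : ℝ) = 2 * d := by simp [mul_comm]
      nlinarith
    simp only [cnt]
    rw [Finset.sum_mul]
    refine (Finset.sum_le_sum fun k _ => hterm k).trans ?_
    rw [← Finset.mul_sum, Finset.sum_add_distrib]
    calc _ ≤ (2 * q) ^ n * P * (q + q) :=
          mul_le_mul_of_nonneg_left (add_le_add hsum1 hsum2) (by positivity)
      _ = _ := by ring

/-- The trace of the `2p`-th power. -/
noncomputable def trc (B : Finset (Site d)) (p : ℕ) (s : Edge d → Bool) : ℝ :=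
  (mat s B ^ (2 * p)).trace

lemma dep_trc (B : Finset (Site d)) (p : ℕ) : Dep (edgesIn B) (trc B p) := by
  intro s s' h
  unfold trc
  rw [mat_congr h]

lemma avg_trc_le {B : Finset (Site d)} {E : Finset (Edge d)} (hE : edgesIn B ⊆ E) (p : ℕ)
    (hp : 0 < p) : avg E (trc B p) ≤ B.card * (4 * (2 * d + p)) ^ p := by
  have hQ : (0 : ℝ) < 2 * d + p := by positivity
  have hq : 0 < Real.sqrt (2 * d + p) := Real.sqrt_pos.2 hQ
  have hq2 : Real.sqrt (2 * d + p) ^ 2 = 2 * d + p := Real.sq_sqrt hQ.le
  have h1 : avg E (trc B p) = ∑ r : B, cnt B r (2 * p) r ∅ := by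
    unfold trc Matrix.trace avg
    rw [gam_sum]
    refine Finset.sum_congr rfl fun r _ => ?_
    have := avg_chi_mat hE r (2 * p) r ∅ (Finset.empty_subset _)
    simpa [chi, avg] using this
  rw [h1]
  calc _ ≤ ∑ _r : B, (4 * (2 * d + p : ℝ)) ^ p := by
        refine Finset.sum_le_sum fun r _ => ?_
        have := cnt_le B r p hq hq2.ge (2 * p) r ∅ r.2 (by simp)
        simp only [Finset.card_empty, pow_zero, mul_one, pot, deg, Finset.notMem_empty,
          Finset.filter_false, df, zero_add, Finset.prod_const_one, Nat.cast_one] at this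
        rw [pow_mul, mul_pow, hq2] at this
        rwa [show (2 : ℝ) ^ 2 = 4 by norm_num] at this
    _ = _ := by simp

end Pool.Agent.P.MP_81d17b_pr
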